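import Pool.Agent.Lib.MP_7161a7_co.Defs

-- part Pool.Agent.Lib.MP_7161a7_co.Cells
section

/-! The decomposition of the plane into the open cells of the integer grid. -/

namespace Pool.Agent.Lib.MP_7161a7_co

open Set Metric

/-- Index of the open cell of the integer subdivision of the line that holds `x`. -/
noncomputable def kk (x : ℝ) : ℤ := ⌊x⌋ + ⌈x⌉

def step (a s : ℤ) : ℤ := if a % 2 = 0 then a + s else a

noncomputable def sg (x : ℝ) : ℤ := if 0 < x then 1 else if x < 0 then -1 else 0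

lemma sg_pos {x : ℝ} (h : 0 < x) : sg x = 1 := by simp [sg, h]
lemma sg_neg {x : ℝ} (h : x < 0) : sg x = -1 := by simp [sg, h, not_lt.2 h.le]
lemma sg_zero : sg 0 = 0 := by simp [sg]

lemma sg_eq_zero {x : ℝ} : sg x = 0 ↔ x = 0 := by
  rcases lt_trichotomy x 0 with h | h | h
  · simp [sg_neg h, h.ne]
  · simp [h, sg_zero]
  · simp [sg_pos h, h.ne']

lemma sg_eq_one {x : ℝ} : sg x = 1 ↔ 0 < x := by
  rcases lt_trichotomy x 0 with h | h | h
  · simp [sg_neg h, h.le]
  · simp [h, sg_zero]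
  · simp [sg_pos h, h]

lemma sg_eq_neg_one {x : ℝ} : sg x = -1 ↔ x < 0 := by
  rcases lt_trichotomy x 0 with h | h | h
  · simp [sg_neg h, h]
  · simp [h, sg_zero]
  · simp [sg_pos h, h.le]

lemma kk_int (n : ℤ) : kk n = 2 * n := by simp [kk]; ring

lemma kk_of_mem (n : ℤ) (x : ℝ) (h1 : (n : ℝ) < x) (h2 : x < n + 1) : kk x = 2 * n + 1 := by
  have hf : ⌊x⌋ = n := Int.floor_eq_iff.2 ⟨h1.le, h2⟩
  have hc : ⌈x⌉ = n + 1 := Int.ceil_eq_iff.2 ⟨by push_cast; linarith, by push_cast; linarith⟩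
  simp [kk, hf, hc]; ring

lemma real_cases (x : ℝ) : (∃ n : ℤ, x = n) ∨ ∃ n : ℤ, (n : ℝ) < x ∧ x < n + 1 := by
  rcases (Int.floor_le x).eq_or_lt with h | h
  · exact Or.inl ⟨_, h.symm⟩
  · exact Or.inr ⟨_, h, Int.lt_floor_add_one x⟩

lemma eq_int_of_kk {x : ℝ} {n : ℤ} (h : kk x = 2 * n) : x = n := by
  rcases real_cases x with ⟨m, rfl⟩ | ⟨m, h1, h2⟩
  · rw [kk_int] at h
    have : m = n := by omega
    rw [this]
  · rw [kk_of_mem m x h1 h2] at h; omega

lemma mem_of_kk {x : ℝ} {n : ℤ} (h : kk x = 2 * n + 1) : (n : ℝ) < x ∧ x < n + 1 := by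
  rcases real_cases x with ⟨m, rfl⟩ | ⟨m, h1, h2⟩
  · rw [kk_int] at h; omega
  · rw [kk_of_mem m x h1 h2] at h
    have : m = n := by omega
    subst this; exact ⟨h1, h2⟩

lemma kk_near_int (n : ℤ) (y : ℝ) (h : |y - n| < 1) : kk y = 2 * n + sg (y - n) := by
  rw [abs_lt] at h
  rcases lt_trichotomy (y - n) 0 with h0 | h0 | h0
  · rw [sg_neg h0, kk_of_mem (n - 1) y (by push_cast; linarith) (by push_cast; linarith)]; ring
  · have : y = n := by linarith
    rw [h0, sg_zero, this, kk_int]; ring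
  · rw [sg_pos h0, kk_of_mem n y (by linarith) (by linarith)]

lemma kk_near (x : ℝ) : ∃ δ > 0, ∀ y, |y - x| < δ → kk y = step (kk x) (sg (y - x)) := by
  rcases real_cases x with ⟨m, rfl⟩ | ⟨m, h1, h2⟩
  · refine ⟨1, one_pos, fun y hy => ?_⟩
    rw [kk_near_int m y hy, kk_int, step, if_pos (by omega)]
  · refine ⟨min (x - m) (m + 1 - x), lt_min (by linarith) (by linarith), fun y hy => ?_⟩
    have ha := lt_of_lt_of_le hy (min_le_left _ _)
    have hb := lt_of_lt_of_le hy (min_le_right _ _)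
    rw [abs_lt] at ha hb
    rw [kk_of_mem m x h1 h2, kk_of_mem m y (by linarith) (by linarith), step, if_neg (by omega)]

lemma kk_add_mul (a d : ℤ) (hd : d = -1 ∨ d = 0 ∨ d = 1) (τ : ℝ) (h0 : 0 < τ) (h1 : τ < 1) :
    kk (a + τ * d) = 2 * a + d := by
  rcases hd with rfl | rfl | rfl
  · rw [kk_of_mem (a - 1) _ (by push_cast; linarith) (by push_cast; linarith)]; ring
  · simp [kk_int]
  · rw [kk_of_mem a _ (by push_cast; linarith) (by push_cast; linarith)]

/-- Index of the open cell of the integer grid that holds `q`. -/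
noncomputable def idx (q : Plane) : ℤ × ℤ := (kk q.1, kk q.2)

def nb (w s : ℤ × ℤ) : ℤ × ℤ := (step w.1 s.1, step w.2 s.2)

noncomputable def cls (p q : Plane) : ℤ × ℤ := (sg (q.1 - p.1), sg (q.2 - p.2))

lemma abs_fst_lt {p q : Plane} {δ : ℝ} (h : q ∈ ball p δ) : |q.1 - p.1| < δ := by
  rw [mem_ball, Prod.dist_eq, max_lt_iff] at h
  simpa [Real.dist_eq] using h.1

lemma abs_snd_lt {p q : Plane} {δ : ℝ} (h : q ∈ ball p δ) : |q.2 - p.2| < δ := by
  rw [mem_ball, Prod.dist_eq, max_lt_iff] at h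
  simpa [Real.dist_eq] using h.2

lemma idx_near (p : Plane) : ∃ δ > 0, ∀ q ∈ ball p δ, idx q = nb (idx p) (cls p q) := by
  obtain ⟨δ₁, h₁, H₁⟩ := kk_near p.1
  obtain ⟨δ₂, h₂, H₂⟩ := kk_near p.2
  refine ⟨min δ₁ δ₂, lt_min h₁ h₂, fun q hq => ?_⟩
  simp only [idx, nb, cls]
  rw [H₁ q.1 (lt_of_lt_of_le (abs_fst_lt hq) (min_le_left _ _)),
    H₂ q.2 (lt_of_lt_of_le (abs_snd_lt hq) (min_le_right _ _))]

lemma idx_near_int (a : ℤ × ℤ) (q : Plane) (hq : q ∈ ball ((a.1 : ℝ), (a.2 : ℝ)) 1) :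
    idx q = nb (2 * a.1, 2 * a.2) (cls ((a.1 : ℝ), (a.2 : ℝ)) q) := by
  simp only [idx, nb, cls]
  rw [kk_near_int a.1 q.1 (abs_fst_lt hq), kk_near_int a.2 q.2 (abs_snd_lt hq), step, step,
    if_pos (by omega), if_pos (by omega)]

/-- The eight directions, counterclockwise from the east. -/
def dir (i : ℕ) : ℤ × ℤ :=
  match i % 8 with
  | 0 => (1, 0)
  | 1 => (1, 1)
  | 2 => (0, 1)
  | 3 => (-1, 1)
  | 4 => (-1, 0)
  | 5 => (-1, -1)
  | 6 => (0, -1)
  | _ => (1, -1)

lemma dir_mod (i : ℕ) : dir (i % 8) = dir i := by simp [dir]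

lemma sg_cases (x : ℝ) : sg x = -1 ∨ sg x = 0 ∨ sg x = 1 := by
  unfold sg; split_ifs <;> simp

lemma cls_eq_dir {p q : Plane} (h : q ≠ p) : ∃ i < 8, cls p q = dir i := by
  have key : ∀ a b : ℤ, (a = -1 ∨ a = 0 ∨ a = 1) → (b = -1 ∨ b = 0 ∨ b = 1) → ¬ (a = 0 ∧ b = 0) →
      ∃ i < 8, (a, b) = dir i := by
    intro a b ha hb hab
    rcases ha with rfl | rfl | rfl <;> rcases hb with rfl | rfl | rfl <;>
      first | decide | exact absurd ⟨rfl, rfl⟩ hab
  refine key _ _ (sg_cases _) (sg_cases _) ?_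
  rintro ⟨h1, h2⟩
  rw [sg_eq_zero, sub_eq_zero] at h1 h2
  exact h (Prod.ext h1 h2)

lemma cls_self (p : Plane) : cls p p = (0, 0) := by simp [cls, sg_zero]

/-- `s` is a face of `s'`. -/
def sle (s s' : ℤ × ℤ) : Prop := (s.1 = 0 ∨ s.1 = s'.1) ∧ (s.2 = 0 ∨ s.2 = s'.2)

instance (s s' : ℤ × ℤ) : Decidable (sle s s') := by unfold sle; infer_instance

lemma sg_comb {x y a b : ℝ} (h : sg x = 0 ∨ sg x = sg y) (ha : 0 ≤ a) (hb : 0 < b) :
    sg (a * x + b * y) = sg y := by
  rcases lt_trichotomy y 0 with hy | hy | hy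
  · have hx : x ≤ 0 := by
      rcases h with h | h
      · exact (sg_eq_zero.1 h).le
      · rw [sg_neg hy] at h; exact (sg_eq_neg_one.1 h).le
    rw [sg_neg hy, sg_neg]
    nlinarith [mul_nonneg ha (neg_nonneg.2 hx), mul_pos hb (neg_pos.2 hy)]
  · have hx : x = 0 := by
      rcases h with h | h
      · exact sg_eq_zero.1 h
      · rw [hy, sg_zero] at h; exact sg_eq_zero.1 h
    simp [hx, hy]
  · have hx : 0 ≤ x := by
      rcases h with h | h
      · exact (sg_eq_zero.1 h).ge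
      · rw [sg_pos hy] at h; exact (sg_eq_one.1 h).le
    rw [sg_pos hy, sg_pos]
    nlinarith [mul_nonneg ha hx, mul_pos hb hy]

section Join

variable {p : Plane} {δ : ℝ} {B : Set Plane} {blocked : ℤ × ℤ → Prop}

lemma joined_of_sle (hB : ∀ q ∈ ball p δ, q ∈ B ↔ blocked (cls p q)) {q q' : Plane}
    (hq : q ∈ ball p δ) (hq' : q' ∈ ball p δ) (hle : sle (cls p q) (cls p q'))
    (h1 : ¬ blocked (cls p q)) (h2 : ¬ blocked (cls p q')) : JoinedIn (ball p δ \ B) q q' := by
  apply JoinedIn.of_segment_subset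
  intro z hz
  have hzb : z ∈ ball p δ := (convex_ball p δ).segment_subset hq hq' hz
  refine ⟨hzb, ?_⟩
  rw [hB z hzb]
  obtain ⟨a, b, ha, hb, hab, rfl⟩ := hz
  rcases hb.eq_or_lt with hb0 | hb0
  · have ha1 : a = 1 := by linarith
    simpa [← hb0, ha1] using h1
  · have : cls p (a • q + b • q') = cls p q' := by
      have e1 : (a • q + b • q').1 - p.1 = a * (q.1 - p.1) + b * (q'.1 - p.1) := by
        simp only [Prod.fst_add, Prod.smul_fst, smul_eq_mul]
        have : p.1 = (a + b) * p.1 := by rw [hab, one_mul]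
        linarith
      have e2 : (a • q + b • q').2 - p.2 = a * (q.2 - p.2) + b * (q'.2 - p.2) := by
        simp only [Prod.snd_add, Prod.smul_snd, smul_eq_mul]
        have : p.2 = (a + b) * p.2 := by rw [hab, one_mul]
        linarith
      simp only [cls]
      rw [e1, e2, sg_comb hle.1 ha hb0, sg_comb hle.2 ha hb0]
    rw [this]; exact h2

noncomputable def rep (p : Plane) (δ : ℝ) (i : ℕ) : Plane :=
  (p.1 + δ / 2 * (dir i).1, p.2 + δ / 2 * (dir i).2)

lemma dir_cases (i : ℕ) : ((dir i).1 = -1 ∨ (dir i).1 = 0 ∨ (dir i).1 = 1) ∧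
    ((dir i).2 = -1 ∨ (dir i).2 = 0 ∨ (dir i).2 = 1) := by
  rw [← dir_mod]
  have : i % 8 < 8 := Nat.mod_lt _ (by norm_num)
  revert this; generalize i % 8 = j; intro hj
  interval_cases j <;> decide

lemma dir_succ (i : ℕ) : sle (dir i) (dir (i + 1)) ∨ sle (dir (i + 1)) (dir i) := by
  have e : dir (i + 1) = dir (i % 8 + 1) := by
    rw [← dir_mod (i + 1), ← dir_mod (i % 8 + 1)]; congr 1; omega
  rw [e, ← dir_mod i]
  have : i % 8 < 8 := Nat.mod_lt _ (by norm_num)
  revert this; generalize i % 8 = j; intro hj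
  interval_cases j <;> decide

lemma sg_mul_int {r : ℝ} (hr : 0 < r) {d : ℤ} (hd : d = -1 ∨ d = 0 ∨ d = 1) : sg (r * d) = d := by
  rcases hd with rfl | rfl | rfl
  · rw [sg_neg]; push_cast; linarith
  · simp [sg_zero]
  · rw [sg_pos]; push_cast; linarith

lemma cls_rep (hδ : 0 < δ) (i : ℕ) : cls p (rep p δ i) = dir i := by
  simp only [cls, rep, add_sub_cancel_left]
  rw [sg_mul_int (by linarith) (dir_cases i).1, sg_mul_int (by linarith) (dir_cases i).2]

lemma rep_mem (hδ : 0 < δ) (i : ℕ) : rep p δ i ∈ ball p δ := by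
  rw [mem_ball, Prod.dist_eq, max_lt_iff]
  simp only [rep, Real.dist_eq, add_sub_cancel_left]
  constructor
  · rcases (dir_cases i).1 with h | h | h <;> rw [h, abs_lt] <;> constructor <;> push_cast <;> linarith
  · rcases (dir_cases i).2 with h | h | h <;> rw [h, abs_lt] <;> constructor <;> push_cast <;> linarith

lemma sle_refl (s : ℤ × ℤ) : sle s s := ⟨Or.inr rfl, Or.inr rfl⟩

lemma joined_rep (hδ : 0 < δ) (hB : ∀ q ∈ ball p δ, q ∈ B ↔ blocked (cls p q)) (i len : ℕ)
    (h : ∀ k ≤ len, ¬ blocked (dir (i + k))) :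
    JoinedIn (ball p δ \ B) (rep p δ i) (rep p δ (i + len)) := by
  induction len with
  | zero =>
    refine joined_of_sle hB (rep_mem hδ _) (rep_mem hδ _) (sle_refl _) ?_ ?_ <;>
      rw [cls_rep hδ] <;> exact h 0 le_rfl
  | succ n ih =>
    refine (ih fun k hk => h k (by omega)).trans ?_
    have h1 := h n (by omega)
    have h2 := h (n + 1) le_rfl
    rcases dir_succ (i + n) with hs | hs
    · refine joined_of_sle hB (rep_mem hδ _) (rep_mem hδ _) ?_ ?_ ?_ <;> simp only [cls_rep hδ]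
      · exact hs
      · exact h1
      · exact h2
    · refine (joined_of_sle hB (rep_mem hδ _) (rep_mem hδ _) ?_ ?_ ?_).symm <;>
        simp only [cls_rep hδ]
      · exact hs
      · exact h2
      · exact h1

lemma joined_of_arcFree (hδ : 0 < δ) (hB : ∀ q ∈ ball p δ, q ∈ B ↔ blocked (cls p q))
    {i j : ℕ} (hi : i < 8) (hj : j < 8) {q q' : Plane} (hq : q ∈ ball p δ) (hq' : q' ∈ ball p δ)
    (ci : cls p q = dir i) (cj : cls p q' = dir j)
    (h : ∀ k ≤ (j + 8 - i) % 8, ¬ blocked (dir (i + k))) : JoinedIn (ball p δ \ B) q q' := by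
  have e : dir (i + (j + 8 - i) % 8) = dir j := by
    rw [← dir_mod (i + _), ← dir_mod j]; congr 1; omega
  have h0 := h 0 (Nat.zero_le _)
  have h1 := h _ le_rfl
  rw [e] at h1
  refine (joined_of_sle hB hq (rep_mem hδ i) ?_ ?_ ?_).trans
    ((joined_rep hδ hB i _ h).trans (joined_of_sle hB (rep_mem hδ _) hq' ?_ ?_ ?_))
  · rw [ci, cls_rep hδ]; exact sle_refl _
  · rw [ci]; exact h0
  · rw [cls_rep hδ]; exact h0
  · rw [cj, cls_rep hδ, e]; exact sle_refl _
  · rw [cls_rep hδ, e]; exact h1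
  · rw [cj]; exact h1

end Join

end Pool.Agent.Lib.MP_7161a7_co
end

-- part Pool.Agent.Lib.MP_7161a7_co.Arcs
section

/-! Lattice paths as simple arcs. -/

namespace Pool.Agent.Lib.MP_7161a7_co

open Set

/-- A lattice point as a point of the plane. -/
def toP (a : ℤ × ℤ) : Plane := ((a.1 : ℝ), (a.2 : ℝ))

def UnitStep (a b : ℤ × ℤ) : Prop :=
  (b.1 = a.1 + 1 ∧ b.2 = a.2) ∨ (b.1 = a.1 - 1 ∧ b.2 = a.2) ∨
    (b.1 = a.1 ∧ b.2 = a.2 + 1) ∨ (b.1 = a.1 ∧ b.2 = a.2 - 1)

instance (a b : ℤ × ℤ) : Decidable (UnitStep a b) := by unfold UnitStep; infer_instance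

/-- The cells that a lattice path visits. -/
def cellOf (P : ℕ → ℤ × ℤ) (j : ℕ) : ℤ × ℤ :=
  ((P (j / 2)).1 + (P ((j + 1) / 2)).1, (P (j / 2)).2 + (P ((j + 1) / 2)).2)

noncomputable def clamp (x : ℝ) : ℝ := max 0 (min 1 x)

noncomputable def poly (P : ℕ → ℤ × ℤ) (m : ℕ) (s : ℝ) : Plane :=
  toP (P 0) + ∑ k ∈ Finset.range m, clamp (s - k) • (toP (P (k + 1)) - toP (P k))

lemma continuous_poly (P : ℕ → ℤ × ℤ) (m : ℕ) : Continuous (poly P m) := by
  unfold poly clamp
  fun_prop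

lemma poly_eq (P : ℕ → ℤ × ℤ) (m n : ℕ) (s : ℝ) (hn : n ≤ m) (h1 : (n : ℝ) ≤ s)
    (h2 : s ≤ n + 1) (h3 : s ≤ m) :
    poly P m s = toP (P n) + (s - n) • (toP (P (n + 1)) - toP (P n)) := by
  unfold poly
  obtain ⟨r, rfl⟩ := Nat.exists_eq_add_of_le hn
  rw [Finset.sum_range_add]
  have e1 : ∑ k ∈ Finset.range n, clamp (s - k) • (toP (P (k + 1)) - toP (P k)) =
      toP (P n) - toP (P 0) := by
    rw [← Finset.sum_range_sub (fun k => toP (P k))]
    refine Finset.sum_congr rfl fun k hk => ?_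
    have hk' : (k : ℝ) + 1 ≤ n := by exact_mod_cast Finset.mem_range.1 hk
    have : clamp (s - k) = 1 := by
      unfold clamp; rw [min_eq_left (by linarith), max_eq_right zero_le_one]
    rw [this, one_smul]
  rw [e1]
  rcases r with _ | r
  · have : s = n := by push_cast at h3; linarith
    simp [this]
  · rw [Finset.sum_range_succ']
    have e2 : ∑ k ∈ Finset.range r, clamp (s - ((n + (k + 1) : ℕ) : ℝ)) •
        (toP (P (n + (k + 1) + 1)) - toP (P (n + (k + 1)))) = 0 := by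
      refine Finset.sum_eq_zero fun k _ => ?_
      have : clamp (s - ((n + (k + 1) : ℕ) : ℝ)) = 0 := by
        unfold clamp
        have hk : (0 : ℝ) ≤ k := Nat.cast_nonneg k
        apply max_eq_left
        apply min_le_of_right_le
        push_cast; linarith
      rw [this, zero_smul]
    rw [e2]
    have : clamp (s - ((n + 0 : ℕ) : ℝ)) = s - n := by
      unfold clamp
      simp only [add_zero]
      rw [min_eq_right (by linarith), max_eq_right (by linarith)]
    rw [this]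
    simp only [add_zero]
    abel

lemma poly_nat (P : ℕ → ℤ × ℤ) (m n : ℕ) (hn : n ≤ m) : poly P m n = toP (P n) := by
  rw [poly_eq P m n n hn le_rfl (by linarith) (by exact_mod_cast hn)]; simp

lemma idx_toP (a : ℤ × ℤ) : idx (toP a) = (2 * a.1, 2 * a.2) := by
  simp [idx, toP, kk_int]

lemma cellOf_even (P : ℕ → ℤ × ℤ) (n : ℕ) : cellOf P (2 * n) = (2 * (P n).1, 2 * (P n).2) := by
  have e1 : 2 * n / 2 = n := by omega
  have e2 : (2 * n + 1) / 2 = n := by omega
  simp only [cellOf, e1, e2]; ext <;> simp <;> ring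

lemma cellOf_odd (P : ℕ → ℤ × ℤ) (n : ℕ) :
    cellOf P (2 * n + 1) = ((P n).1 + (P (n + 1)).1, (P n).2 + (P (n + 1)).2) := by
  have e1 : (2 * n + 1) / 2 = n := by omega
  have e2 : (2 * n + 1 + 1) / 2 = n + 1 := by omega
  simp only [cellOf, e1, e2]

/-- A parameter value is a natural number or lies strictly between two consecutive ones. -/
lemma param_cases (m : ℕ) (s : ℝ) (h0 : 0 ≤ s) (h1 : s ≤ m) :
    (∃ n : ℕ, n ≤ m ∧ s = n) ∨ ∃ n : ℕ, n < m ∧ (n : ℝ) < s ∧ s < n + 1 := by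
  rcases (Nat.floor_le h0).eq_or_lt with h | h
  · refine Or.inl ⟨⌊s⌋₊, ?_, h.symm⟩
    exact_mod_cast h.le.trans h1
  · refine Or.inr ⟨⌊s⌋₊, ?_, h, Nat.lt_floor_add_one s⟩
    exact_mod_cast h.trans_le h1

section

variable {P : ℕ → ℤ × ℤ} {m : ℕ}

lemma idx_poly_mid (hu : ∀ k < m, UnitStep (P k) (P (k + 1))) {n : ℕ} (hn : n < m) {s : ℝ}
    (h1 : (n : ℝ) < s) (h2 : s < n + 1) : idx (poly P m s) = cellOf P (2 * n + 1) := by
  have hm : (n : ℝ) + 1 ≤ m := by exact_mod_cast hn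
  rw [poly_eq P m n s hn.le h1.le h2.le (by linarith), cellOf_odd]
  have hτ0 : 0 < s - n := by linarith
  have hτ1 : s - n < 1 := by linarith
  have a1 := kk_add_mul (P n).1 ((P (n + 1)).1 - (P n).1)
    (by rcases hu n hn with h | h | h | h <;> omega) _ hτ0 hτ1
  have a2 := kk_add_mul (P n).2 ((P (n + 1)).2 - (P n).2)
    (by rcases hu n hn with h | h | h | h <;> omega) _ hτ0 hτ1
  simp only [idx, toP, Prod.fst_add, Prod.snd_add, Prod.smul_fst, Prod.smul_snd, Prod.fst_sub,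
    Prod.snd_sub, smul_eq_mul]
  push_cast at a1 a2
  rw [a1, a2]
  ext <;> simp <;> ring

lemma idx_poly_nat {n : ℕ} (hn : n ≤ m) : idx (poly P m n) = cellOf P (2 * n) := by
  rw [poly_nat P m n hn, idx_toP, cellOf_even]

lemma mem_poly_iff (hu : ∀ k < m, UnitStep (P k) (P (k + 1))) (q : Plane) :
    q ∈ poly P m '' Icc 0 m ↔ ∃ j ≤ 2 * m, cellOf P j = idx q := by
  constructor
  · rintro ⟨s, ⟨h0, h1⟩, rfl⟩
    rcases param_cases m s h0 h1 with ⟨n, hn, rfl⟩ | ⟨n, hn, a, b⟩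
    · exact ⟨2 * n, by omega, (idx_poly_nat hn).symm⟩
    · exact ⟨2 * n + 1, by omega, (idx_poly_mid hu hn a b).symm⟩
  · rintro ⟨j, hj, e⟩
    rcases Nat.even_or_odd' j with ⟨n, rfl | rfl⟩
    · rw [cellOf_even] at e
      simp only [idx, Prod.mk.injEq] at e
      refine ⟨n, ⟨Nat.cast_nonneg n, by exact_mod_cast (by omega : n ≤ m)⟩, ?_⟩
      rw [poly_nat P m n (by omega)]
      exact Prod.ext (eq_int_of_kk e.1.symm).symm (eq_int_of_kk e.2.symm).symm
    · rw [cellOf_odd] at e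
      simp only [idx, Prod.mk.injEq] at e
      have hn : n < m := by omega
      have hm : (n : ℝ) + 1 ≤ m := by exact_mod_cast hn
      have hn0 : (0 : ℝ) ≤ n := Nat.cast_nonneg n
      have main : ∀ τ : ℝ, 0 < τ → τ < 1 →
          toP (P n) + τ • (toP (P (n + 1)) - toP (P n)) = q → q ∈ poly P m '' Icc 0 m := by
        intro τ h0 h1 h
        refine ⟨n + τ, ⟨by linarith, by linarith⟩, ?_⟩
        rw [poly_eq P m n _ hn.le (by linarith) (by linarith) (by linarith), add_sub_cancel_left, h]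
      rcases hu n hn with h | h | h | h
      · have b1 := mem_of_kk (x := q.1) (n := (P n).1) (by omega)
        have b2 := eq_int_of_kk (x := q.2) (n := (P n).2) (by omega)
        refine main (q.1 - (P n).1) (by linarith [b1.1]) (by linarith [b1.2]) ?_
        ext <;> simp [toP, h.1, h.2, b2]
      · have b1 := mem_of_kk (x := q.1) (n := (P n).1 - 1) (by omega)
        have b2 := eq_int_of_kk (x := q.2) (n := (P n).2) (by omega)
        push_cast at b1
        refine main ((P n).1 - q.1) (by linarith [b1.2]) (by linarith [b1.1]) ?_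
        ext <;> simp [toP, h.1, h.2, b2]
      · have b1 := mem_of_kk (x := q.2) (n := (P n).2) (by omega)
        have b2 := eq_int_of_kk (x := q.1) (n := (P n).1) (by omega)
        refine main (q.2 - (P n).2) (by linarith [b1.1]) (by linarith [b1.2]) ?_
        ext <;> simp [toP, h.1, h.2, b2]
      · have b1 := mem_of_kk (x := q.2) (n := (P n).2 - 1) (by omega)
        have b2 := eq_int_of_kk (x := q.1) (n := (P n).1) (by omega)
        push_cast at b1
        refine main ((P n).2 - q.2) (by linarith [b1.2]) (by linarith [b1.1]) ?_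
        ext <;> simp [toP, h.1, h.2, b2]

lemma injOn_poly (hu : ∀ k < m, UnitStep (P k) (P (k + 1)))
    (hc : ∀ i ≤ 2 * m, ∀ j ≤ 2 * m, cellOf P i = cellOf P j → i = j) :
    InjOn (poly P m) (Icc 0 m) := by
  rintro s ⟨s0, s1⟩ t ⟨t0, t1⟩ e
  have e' := congrArg idx e
  rcases param_cases m s s0 s1 with ⟨n, hn, rfl⟩ | ⟨n, hn, a, b⟩ <;>
    rcases param_cases m t t0 t1 with ⟨n', hn', rfl⟩ | ⟨n', hn', a', b'⟩
  · rw [idx_poly_nat hn, idx_poly_nat hn'] at e'
    have := hc _ (by omega) _ (by omega) e'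
    have : n = n' := by omega
    rw [this]
  · rw [idx_poly_nat hn, idx_poly_mid hu hn' a' b'] at e'
    have := hc _ (by omega) _ (by omega) e'
    omega
  · rw [idx_poly_nat hn', idx_poly_mid hu hn a b] at e'
    have := hc _ (by omega) _ (by omega) e'
    omega
  · rw [idx_poly_mid hu hn a b, idx_poly_mid hu hn' a' b'] at e'
    have := hc _ (by omega) _ (by omega) e'
    obtain rfl : n = n' := by omega
    rw [poly_eq P m n s hn.le a.le b.le s1, poly_eq P m n t hn.le a'.le b'.le t1] at e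
    have e1 := congrArg Prod.fst e
    have e2 := congrArg Prod.snd e
    simp only [toP, Prod.fst_add, Prod.snd_add, Prod.smul_fst, Prod.smul_snd, Prod.fst_sub,
      Prod.snd_sub, smul_eq_mul] at e1 e2
    rcases hu n hn with h | h | h | h
    · rw [h.1] at e1; push_cast at e1; linarith
    · rw [h.1] at e1; push_cast at e1; linarith
    · rw [h.2] at e2; push_cast at e2; linarith
    · rw [h.2] at e2; push_cast at e2; linarith

lemma isArc_poly (hm : 0 < m) (hu : ∀ k < m, UnitStep (P k) (P (k + 1)))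
    (hc : ∀ i ≤ 2 * m, ∀ j ≤ 2 * m, cellOf P i = cellOf P j → i = j) :
    IsArc {q | ∃ j ≤ 2 * m, cellOf P j = idx q} (toP (P 0)) (toP (P m)) := by
  have hm' : (0 : ℝ) < m := by exact_mod_cast hm
  let γ : Path (toP (P 0)) (toP (P m)) :=
    { toFun := fun t => poly P m (m * t)
      continuous_toFun := (continuous_poly P m).comp (by fun_prop)
      source' := by simpa using poly_nat P m 0 (Nat.zero_le _)
      target' := by simpa using poly_nat P m m le_rfl }
  have hmem : ∀ t : unitInterval, (m : ℝ) * t ∈ Icc (0 : ℝ) m := fun t =>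
    ⟨mul_nonneg hm'.le t.2.1, by nlinarith [t.2.2]⟩
  refine ⟨γ, fun s t e => ?_, ?_⟩
  · have := injOn_poly hu hc (hmem s) (hmem t) e
    exact Subtype.ext (mul_left_cancel₀ hm'.ne' this)
  · ext q
    rw [mem_ofPred_eq, ← mem_poly_iff hu]
    constructor
    · rintro ⟨t, rfl⟩
      exact ⟨_, hmem t, rfl⟩
    · rintro ⟨s, ⟨s0, s1⟩, rfl⟩
      refine ⟨⟨s / m, div_nonneg s0 hm'.le, (div_le_one hm').2 s1⟩, ?_⟩
      change poly P m (m * (s / m)) = _
      rw [mul_div_cancel₀ _ hm'.ne']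

end

lemma IsArc.symm {A : Set Plane} {x y : Plane} (h : IsArc A x y) : IsArc A y x := by
  obtain ⟨γ, h1, h2⟩ := h
  refine ⟨γ.symm, fun s t e => ?_, by rw [Path.symm_range, h2]⟩
  exact unitInterval.symm_bijective.injective (h1 e)

end Pool.Agent.Lib.MP_7161a7_co
end
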