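import Pool.Agent.Lib.MP_7161a7_co.Data

/-! Finite checks on the nine-arc drawing. -/

namespace Pool.Agent.Lib.MP_7161a7_co

def allLt (n : ℕ) (f : ℕ → Bool) : Bool := Nat.rec true (fun k r => f k && r) n

theorem allLt_iff {n : ℕ} {f : ℕ → Bool} : allLt n f = true ↔ ∀ k < n, f k = true := by
  induction n with
  | zero => simp [allLt]
  | succ n ih =>
    have : allLt (n + 1) f = (f n && allLt n f) := rfl
    rw [this, Bool.and_eq_true, ih]
    constructor
    · rintro ⟨h1, h2⟩ k hk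
      rcases Nat.lt_succ_iff_lt_or_eq.1 hk with h | rfl
      · exact h2 k h
      · exact h1
    · intro h
      exact ⟨h n (Nat.lt_succ_self n), fun k hk => h k (Nat.lt_succ_of_lt hk)⟩

/-- Evaluate `n` before passing it on. -/
def force (n : ℕ) (k : ℕ → Bool) : Bool := Nat.rec (k 0) (fun p _ => k (Nat.succ p)) n

theorem force_eq (n : ℕ) (k : ℕ → Bool) : force n k = k n := by cases n <;> rfl

def field (t w i : ℕ) : ℕ := Nat.mod (Nat.shiftRight t (Nat.mul w i)) (Nat.pow 2 w)

def bit (t i : ℕ) : Bool := Nat.beq (Nat.land 1 (Nat.shiftRight t i)) 1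

def xN (c k : ℕ) : ℕ := field (xTab c) 5 k
def yN (c k : ℕ) : ℕ := field (yTab c) 5 k
def cX (c j : ℕ) : ℕ := Nat.add (xN c (Nat.div j 2)) (xN c (Nat.div (Nat.succ j) 2))
def cY (c j : ℕ) : ℕ := Nat.add (yN c (Nat.div j 2)) (yN c (Nat.div (Nat.succ j) 2))

def inBox (x y : ℕ) : Bool := Nat.ble 2 x && Nat.ble x 44 && Nat.ble 2 y && Nat.ble y 52
def code (x y : ℕ) : ℕ := Nat.add (Nat.mul x 64) y
def labN (x y : ℕ) : ℕ := bif inBox x y then field labTab 9 (code x y) else 0
def faceN (x y : ℕ) : ℕ := bif inBox x y then field faceTab 5 (code x y) else 0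
def posN (c x y : ℕ) : ℕ := field (posTab c) 8 (code x y)

def stepN (a s : ℕ) : ℕ := bif Nat.beq (Nat.mod a 2) 0 then Nat.pred (Nat.add a s) else a
def dxN (i : ℕ) : ℕ := field 0x901a 2 i
def dyN (i : ℕ) : ℕ := field 0x1a9 2 i
def nlab (x y i : ℕ) : ℕ := labN (stepN x (dxN i)) (stepN y (dyN i))
def nface (x y i : ℕ) : ℕ := faceN (stepN x (dxN i)) (stepN y (dyN i))

def reach (u f S : ℕ) : Bool := bit reachTab (Nat.add (Nat.mul 9216 f) (Nat.add (Nat.mul 512 u) S))
def rowB (f : ℕ) : ℕ := field reachTab 9216 f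
def maskB (m : ℕ) : ℕ :=
  Nat.mul repTab (Nat.rec 1
    (fun c r => bif bit m c then r else Nat.mul r (Nat.succ (Nat.pow 2 (Nat.pow 2 c)))) 9)
def closedB (f₁ f₂ m : ℕ) : Bool :=
  bit usedTab m && Nat.beq (Nat.land (Nat.shiftLeft (Nat.land (rowB f₁) (maskB m)) m) (rowB f₂))
    (Nat.shiftLeft (Nat.land (rowB f₁) (maskB m)) m)

def unitB (a b a' b' : ℕ) : Bool :=
  (Nat.beq a' (Nat.succ a) && Nat.beq b' b) || (Nat.beq (Nat.succ a') a && Nat.beq b' b) ||
    (Nat.beq a' a && Nat.beq b' (Nat.succ b)) || (Nat.beq a' a && Nat.beq (Nat.succ b') b)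

def arcFreeB (x y c i len : ℕ) : Bool :=
  allLt (Nat.succ len) fun k => force (Nat.mod (Nat.add i k) 8) fun r => !(bit (nlab x y r) c)

def sepB (x y i j : ℕ) : Bool :=
  allLt 9 fun c => !(bit (labN x y) c) ||
    (!(arcFreeB x y c i (Nat.mod (Nat.sub (Nat.add j 8) i) 8)) &&
      !(arcFreeB x y c j (Nat.mod (Nat.sub (Nat.add i 8) j) 8)))

def transB (x y : ℕ) : Bool :=
  Nat.beq (labN x y) 0 || allLt 8 fun i => !(Nat.beq (nlab x y i) 0) || allLt 8 fun j =>
    !(Nat.beq (nlab x y j) 0) || !(sepB x y i j) ||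
      force (nface x y i) fun f₁ => force (nface x y j) fun f₂ => force (labN x y) fun m =>
        closedB f₁ f₂ m

def eX (c e : ℕ) : ℕ := Nat.mul 2 (xN c (Nat.mul e (lenTab c)))
def eY (c e : ℕ) : ℕ := Nat.mul 2 (yN c (Nat.mul e (lenTab c)))
def crX (c d : ℕ) : ℕ := xN c (field (crossTab c) 7 d)
def crY (c d : ℕ) : ℕ := yN c (field (crossTab c) 7 d)

theorem chk_len : (allLt 9 fun c => Nat.ble 1 (lenTab c)) = true := by decide +kernel

theorem chk_unit : (allLt 9 fun c => allLt (lenTab c) fun k =>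
    unitB (xN c k) (yN c k) (xN c (Nat.succ k)) (yN c (Nat.succ k))) = true := by
  decide +kernel

theorem chk_pos : (allLt 9 fun c => allLt (Nat.succ (Nat.mul 2 (lenTab c))) fun j =>
    Nat.beq (posN c (cX c j) (cY c j)) j && bit (labN (cX c j) (cY c j)) c) = true := by
  decide +kernel

theorem chk_lab : (allLt 45 fun x => allLt 53 fun y => allLt 9 fun c => !(bit (labN x y) c) ||
    (Nat.ble (posN c x y) (Nat.mul 2 (lenTab c)) && Nat.beq (cX c (posN c x y)) x &&
      Nat.beq (cY c (posN c x y)) y)) = true := by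
  decide +kernel

theorem chk_face : (allLt 46 fun x => allLt 54 fun y => !(Nat.beq (labN x y) 0) ||
    allLt 8 fun i => Nat.beq (nface x y i) (faceN x y)) = true := by
  decide +kernel

theorem chk_end_inj : (allLt 9 fun c => allLt 2 fun e => allLt 9 fun d => allLt 2 fun e' =>
    !(Nat.beq (eX c e) (eX d e') && Nat.beq (eY c e) (eY d e')) ||
      (Nat.beq c d && Nat.beq e e')) = true := by
  decide +kernel

theorem chk_end_lab : (allLt 9 fun c => allLt 2 fun e => allLt 9 fun d =>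
    !(bit (labN (eX c e) (eY c e)) d) || Nat.beq d c) = true := by
  decide +kernel

theorem chk_cross_unique : (allLt 9 fun c => allLt 9 fun d => Nat.beq c d ||
    allLt (Nat.succ (Nat.mul 2 (lenTab c))) fun j => !(bit (labN (cX c j) (cY c j)) d) ||
      (Nat.beq (cX c j) (Nat.mul 2 (crX c d)) && Nat.beq (cY c j) (Nat.mul 2 (crY c d)))) = true := by
  decide +kernel

def crossB (x y c d : ℕ) : Bool :=
  allLt 8 fun i => (bit (nlab x y i) c == Nat.beq (dyN i) 1) &&
    (bit (nlab x y i) d == Nat.beq (dxN i) 1)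

theorem chk_cross : (allLt 9 fun c => allLt 9 fun d => Nat.beq c d ||
    (bit (labN (Nat.mul 2 (crX c d)) (Nat.mul 2 (crY c d))) c &&
      bit (labN (Nat.mul 2 (crX c d)) (Nat.mul 2 (crY c d))) d &&
      (crossB (Nat.mul 2 (crX c d)) (Nat.mul 2 (crY c d)) c d ||
        crossB (Nat.mul 2 (crX c d)) (Nat.mul 2 (crY c d)) d c))) = true := by
  decide +kernel

theorem chk_start : (allLt 9 fun c => allLt 2 fun e => allLt 8 fun i =>
    !(Nat.beq (nlab (eX c e) (eY c e) i) 0) ||
      reach (Nat.add (Nat.mul 2 c) e) (nface (eX c e) (eY c e) i) (Nat.pow 2 c)) = true := by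
  decide +kernel

theorem chk_finish : (allLt 9 fun c => allLt 2 fun e => allLt 9 fun d => allLt 2 fun e' =>
    Nat.beq c d || allLt 8 fun i => !(Nat.beq (nlab (eX d e') (eY d e') i) 0) ||
      !(reach (Nat.add (Nat.mul 2 c) e) (nface (eX d e') (eY d e') i)
        (Nat.sub 511 (Nat.pow 2 d)))) = true := by
  decide +kernel

theorem chk_mask : (allLt 512 fun m => !(bit usedTab m) || allLt 512 fun S =>
    !(Nat.beq (Nat.land S m) 0) || (Nat.beq (Nat.lor S m) (Nat.add S m) &&
      Nat.ble (Nat.add S m) 511 &&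
      allLt 18 fun u => bit (maskB m) (Nat.add (Nat.mul 512 u) S))) = true := by
  decide +kernel

theorem chk_trans : (allLt 45 fun x => allLt 53 fun y => transB x y) = true := by
  decide +kernel

end Pool.Agent.Lib.MP_7161a7_co
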