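import Pool.Agent.Lib.MP_7161a7_co.Arcs
import Pool.Agent.Lib.MP_7161a7_co.Checks

/-! The finite checks, read as statements on cells of the grid. -/

namespace Pool.Agent.Lib.MP_7161a7_co

lemma bit_eq (t i : ℕ) : bit t i = t.testBit i := by
  have : bit t i = Nat.beq (1 &&& (t >>> i)) 1 := rfl
  rw [this, Nat.testBit, Nat.one_and_eq_mod_two]
  rcases Nat.mod_two_eq_zero_or_one (t >>> i) with h | h <;> rw [h] <;> rfl

lemma field_eq (t w i : ℕ) : field t w i = (t >>> (w * i)) % 2 ^ w := rfl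

def pt (c k : ℕ) : ℤ × ℤ := (xN c k, yN c k)
def lab (w : ℤ × ℤ) : ℕ := labN w.1.toNat w.2.toNat
def face (w : ℤ × ℤ) : ℕ := faceN w.1.toNat w.2.toNat

lemma lab_nat (x y : ℕ) : lab ((x : ℤ), (y : ℤ)) = labN x y := by simp [lab]
lemma face_nat (x y : ℕ) : face ((x : ℤ), (y : ℤ)) = faceN x y := by simp [face]

lemma cellOf_pt (c j : ℕ) : cellOf (pt c) j = ((cX c j : ℤ), (cY c j : ℤ)) := by
  have e1 : cX c j = xN c (j / 2) + xN c ((j + 1) / 2) := rfl
  have e2 : cY c j = yN c (j / 2) + yN c ((j + 1) / 2) := rfl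
  simp [cellOf, pt, e1, e2]

lemma inBox_iff (x y : ℕ) : inBox x y = true ↔ 2 ≤ x ∧ x ≤ 44 ∧ 2 ≤ y ∧ y ≤ 52 := by
  simp [inBox, and_assoc]

lemma labN_lt (x y : ℕ) : labN x y < 512 := by
  unfold labN
  cases inBox x y
  · simp
  · simp only [cond_true, field_eq]; exact Nat.mod_lt _ (by norm_num)

lemma labN_out {x y : ℕ} (h : ¬ (2 ≤ x ∧ x ≤ 44 ∧ 2 ≤ y ∧ y ≤ 52)) : labN x y = 0 := by
  rw [← inBox_iff, Bool.not_eq_true] at h
  simp [labN, h]

lemma faceN_out {x y : ℕ} (h : ¬ (2 ≤ x ∧ x ≤ 44 ∧ 2 ≤ y ∧ y ≤ 52)) : faceN x y = 0 := by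
  rw [← inBox_iff, Bool.not_eq_true] at h
  simp [faceN, h]

lemma exists_nat_of_lab {w : ℤ × ℤ} (h : lab w ≠ 0) :
    ∃ x < 45, ∃ y < 53, w = (((x : ℕ) : ℤ), ((y : ℕ) : ℤ)) := by
  by_cases hb : 2 ≤ w.1.toNat ∧ w.1.toNat ≤ 44 ∧ 2 ≤ w.2.toNat ∧ w.2.toNat ≤ 52
  · refine ⟨w.1.toNat, by omega, w.2.toNat, by omega, Prod.ext ?_ ?_⟩ <;> simp <;> omega
  · exact absurd (labN_out hb) h

lemma step_toNat (x s : ℕ) (d : ℤ) (h : (s : ℤ) = d + 1) : (step x d).toNat = stepN x s := by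
  have e : stepN x s = bif Nat.beq (x % 2) 0 then x + s - 1 else x := rfl
  rw [e, step]
  rcases Nat.mod_two_eq_zero_or_one x with hx | hx
  · rw [hx, if_pos (by omega)]
    change _ = x + s - 1
    omega
  · rw [hx, if_neg (by omega)]
    change _ = x
    omega

lemma dxN_eq : ∀ i < 8, ((dxN i : ℕ) : ℤ) = (dir i).1 + 1 := by decide +kernel
lemma dyN_eq : ∀ i < 8, ((dyN i : ℕ) : ℤ) = (dir i).2 + 1 := by decide +kernel

lemma lab_nb (x y : ℕ) {i : ℕ} (hi : i < 8) :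
    lab (nb ((x : ℤ), (y : ℤ)) (dir i)) = nlab x y i := by
  simp only [lab, nb, nlab]
  rw [step_toNat x _ _ (dxN_eq i hi), step_toNat y _ _ (dyN_eq i hi)]

lemma face_nb (x y : ℕ) {i : ℕ} (hi : i < 8) :
    face (nb ((x : ℤ), (y : ℤ)) (dir i)) = nface x y i := by
  simp only [face, nb, nface]
  rw [step_toNat x _ _ (dxN_eq i hi), step_toNat y _ _ (dyN_eq i hi)]

lemma len_pos {c : ℕ} (hc : c < 9) : 0 < lenTab c := by
  have := allLt_iff.1 chk_len c hc
  rw [Nat.ble_eq] at this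
  exact this

lemma unit_pt {c : ℕ} (hc : c < 9) : ∀ k < lenTab c, UnitStep (pt c k) (pt c (k + 1)) := by
  intro k hk
  have := allLt_iff.1 (allLt_iff.1 chk_unit c hc) k hk
  simp only [unitB, Bool.or_eq_true, Bool.and_eq_true, Nat.beq_eq, Nat.succ_eq_add_one] at this
  simp only [UnitStep, pt]
  omega

lemma pos_spec {c : ℕ} (hc : c < 9) {j : ℕ} (hj : j ≤ 2 * lenTab c) :
    posN c (cX c j) (cY c j) = j ∧ (labN (cX c j) (cY c j)).testBit c = true := by
  have := allLt_iff.1 (allLt_iff.1 chk_pos c hc) j (Nat.lt_succ_of_le hj)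
  simpa only [Bool.and_eq_true, Nat.beq_eq, bit_eq] using this

lemma cell_inj {c : ℕ} (hc : c < 9) : ∀ i ≤ 2 * lenTab c, ∀ j ≤ 2 * lenTab c,
    cellOf (pt c) i = cellOf (pt c) j → i = j := by
  intro i hi j hj e
  rw [cellOf_pt, cellOf_pt, Prod.mk.injEq, Nat.cast_inj, Nat.cast_inj] at e
  rw [← (pos_spec hc hi).1, ← (pos_spec hc hj).1, e.1, e.2]

lemma lab_iff {c : ℕ} (hc : c < 9) (w : ℤ × ℤ) :
    (∃ j ≤ 2 * lenTab c, cellOf (pt c) j = w) ↔ (lab w).testBit c = true := by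
  constructor
  · rintro ⟨j, hj, rfl⟩
    rw [cellOf_pt, lab_nat]; exact (pos_spec hc hj).2
  · intro h
    obtain ⟨x, hx, y, hy, rfl⟩ := exists_nat_of_lab (w := w) (by rintro h0; simp [h0] at h)
    rw [lab_nat] at h
    have := allLt_iff.1 (allLt_iff.1 (allLt_iff.1 chk_lab x hx) y hy) c hc
    simp only [bit_eq, h, Bool.not_true, Bool.false_or, Bool.and_eq_true, Nat.beq_eq,
      Nat.ble_eq] at this
    exact ⟨posN c x y, this.1.1, by rw [cellOf_pt, this.1.2, this.2]⟩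

lemma step_le (a : ℤ) {s : ℤ} (hs : s = -1 ∨ s = 0 ∨ s = 1) :
    a - 1 ≤ step a s ∧ step a s ≤ a + 1 := by
  unfold step; split_ifs <;> omega

lemma face_const {w : ℤ × ℤ} (h : lab w = 0) {i : ℕ} (hi : i < 8) :
    face (nb w (dir i)) = face w := by
  by_cases hb : 0 ≤ w.1 ∧ w.1 < 46 ∧ 0 ≤ w.2 ∧ w.2 < 54
  · obtain ⟨a, b⟩ := w
    obtain ⟨x, rfl⟩ := Int.eq_ofNat_of_zero_le hb.1
    obtain ⟨y, rfl⟩ := Int.eq_ofNat_of_zero_le hb.2.2.1
    rw [lab_nat] at h
    have := allLt_iff.1 (allLt_iff.1 chk_face x (by simp at hb; omega)) y (by simp at hb; omega)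
    simp only [h, Nat.beq_refl, Bool.not_true, Bool.false_or] at this
    have := allLt_iff.1 this i hi
    rw [face_nb x y hi, face_nat]
    simpa using this
  · have h1 := step_le w.1 (dir_cases i).1
    have h2 := step_le w.2 (dir_cases i).2
    simp only [face, nb]
    rw [faceN_out (by omega), faceN_out (by omega)]

def endPt (c e : ℕ) : ℤ × ℤ := pt c (e * lenTab c)

lemma idx_endPt (c e : ℕ) : idx (toP (endPt c e)) = ((eX c e : ℤ), (eY c e : ℤ)) := by
  have e1 : eX c e = 2 * xN c (e * lenTab c) := rfl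
  have e2 : eY c e = 2 * yN c (e * lenTab c) := rfl
  rw [idx_toP, e1, e2]; simp [endPt, pt]

lemma end_inj {c e d e' : ℕ} (hc : c < 9) (he : e < 2) (hd : d < 9) (he' : e' < 2)
    (h : toP (endPt c e) = toP (endPt d e')) : c = d ∧ e = e' := by
  have h' := congrArg idx h
  rw [idx_endPt, idx_endPt, Prod.mk.injEq, Nat.cast_inj, Nat.cast_inj] at h'
  have := allLt_iff.1 (allLt_iff.1 (allLt_iff.1 (allLt_iff.1 chk_end_inj c hc) e he) d hd) e' he'
  simpa [h'.1, h'.2] using this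

lemma end_lab {c e d : ℕ} (hc : c < 9) (he : e < 2) (hd : d < 9)
    (h : (lab (idx (toP (endPt c e)))).testBit d = true) : d = c := by
  rw [idx_endPt, lab_nat] at h
  have := allLt_iff.1 (allLt_iff.1 (allLt_iff.1 chk_end_lab c hc) e he) d hd
  simpa [bit_eq, h] using this

def crossPt (c d : ℕ) : ℤ × ℤ := (crX c d, crY c d)

lemma cross_unique {c d : ℕ} (hc : c < 9) (hd : d < 9) (hcd : c ≠ d) {w : ℤ × ℤ}
    (h1 : (lab w).testBit c = true) (h2 : (lab w).testBit d = true) :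
    w = (2 * (crossPt c d).1, 2 * (crossPt c d).2) := by
  obtain ⟨j, hj, rfl⟩ := (lab_iff hc w).2 h1
  rw [cellOf_pt, lab_nat] at h2
  have := allLt_iff.1 (allLt_iff.1 chk_cross_unique c hc) d hd
  rw [Bool.or_eq_true, Nat.beq_eq] at this
  have := allLt_iff.1 (this.resolve_left hcd) j (Nat.lt_succ_of_le hj)
  simp only [bit_eq, h2, Bool.not_true, Bool.false_or, Bool.and_eq_true, Nat.beq_eq] at this
  rw [cellOf_pt, this.1, this.2]
  simp [crossPt]

lemma crossB_spec {x y c d : ℕ} (h : crossB x y c d = true) {i : ℕ} (hi : i < 8) :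
    ((lab (nb ((x : ℤ), (y : ℤ)) (dir i))).testBit c = true ↔ (dir i).2 = 0) ∧
    ((lab (nb ((x : ℤ), (y : ℤ)) (dir i))).testBit d = true ↔ (dir i).1 = 0) := by
  have := allLt_iff.1 h i hi
  simp only [Bool.and_eq_true, beq_iff_eq, bit_eq] at this
  rw [lab_nb x y hi, this.1, this.2, Nat.beq_eq, Nat.beq_eq]
  have e1 := dxN_eq i hi
  have e2 := dyN_eq i hi
  constructor <;> omega

lemma cross_spec {c d : ℕ} (hc : c < 9) (hd : d < 9) (hcd : c ≠ d) {w : ℤ × ℤ}
    (hw : w = (2 * (crossPt c d).1, 2 * (crossPt c d).2)) :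
    (lab w).testBit c = true ∧ (lab w).testBit d = true ∧
    ((∀ i < 8, ((lab (nb w (dir i))).testBit c = true ↔ (dir i).2 = 0) ∧
        ((lab (nb w (dir i))).testBit d = true ↔ (dir i).1 = 0)) ∨
     (∀ i < 8, ((lab (nb w (dir i))).testBit d = true ↔ (dir i).2 = 0) ∧
        ((lab (nb w (dir i))).testBit c = true ↔ (dir i).1 = 0))) := by
  have hw' : w = (((Nat.mul 2 (crX c d) : ℕ) : ℤ), ((Nat.mul 2 (crY c d) : ℕ) : ℤ)) := by
    rw [hw]; simp [crossPt]
  have := allLt_iff.1 (allLt_iff.1 chk_cross c hc) d hd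
  rw [Bool.or_eq_true, Nat.beq_eq] at this
  have := this.resolve_left hcd
  simp only [Bool.and_eq_true, Bool.or_eq_true, bit_eq] at this
  rw [hw', lab_nat]
  exact ⟨this.1.1, this.1.2, this.2.imp (fun h i hi => crossB_spec h hi)
    (fun h i hi => crossB_spec h hi)⟩

lemma start_spec {c e i : ℕ} (hc : c < 9) (he : e < 2) (hi : i < 8)
    (h : lab (nb (idx (toP (endPt c e))) (dir i)) = 0) :
    reach (2 * c + e) (face (nb (idx (toP (endPt c e))) (dir i))) (2 ^ c) = true := by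
  rw [idx_endPt, lab_nb _ _ hi] at h
  rw [idx_endPt, face_nb _ _ hi]
  have := allLt_iff.1 (allLt_iff.1 (allLt_iff.1 chk_start c hc) e he) i hi
  simpa [h] using this

lemma finish_spec {c e d e' i : ℕ} (hc : c < 9) (he : e < 2) (hd : d < 9) (he' : e' < 2)
    (hcd : c ≠ d) (hi : i < 8) (h : lab (nb (idx (toP (endPt d e'))) (dir i)) = 0) :
    ¬ reach (2 * c + e) (face (nb (idx (toP (endPt d e'))) (dir i))) (511 - 2 ^ d) = true := by
  rw [idx_endPt, lab_nb _ _ hi] at h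
  rw [idx_endPt, face_nb _ _ hi]
  have := allLt_iff.1 (allLt_iff.1 (allLt_iff.1 (allLt_iff.1 chk_finish c hc) e he) d hd) e' he'
  rw [Bool.or_eq_true, Nat.beq_eq] at this
  have := allLt_iff.1 (this.resolve_left hcd) i hi
  simpa [h] using this

lemma reach_iff_row {u f S : ℕ} (hu : u < 18) (hS : S < 512) :
    reach u f S = (rowB f).testBit (512 * u + S) := by
  have e : reach u f S = bit reachTab (9216 * f + (512 * u + S)) := rfl
  rw [e, bit_eq, rowB, field_eq, Nat.testBit_mod_two_pow, Nat.testBit_shiftRight]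
  have : 512 * u + S < 9216 := by omega
  simp [this]

lemma closed_spec {f₁ f₂ m : ℕ} (hm : m < 512) (h : closedB f₁ f₂ m = true) {u S : ℕ}
    (hu : u < 18) (hS : S < 512) (h1 : reach u f₁ S = true) (h2 : S &&& m = 0) :
    reach u f₂ (S ||| m) = true := by
  have e : closedB f₁ f₂ m = (bit usedTab m && Nat.beq (((rowB f₁ &&& maskB m) <<< m) &&& rowB f₂)
      ((rowB f₁ &&& maskB m) <<< m)) := rfl
  rw [e, Bool.and_eq_true, Nat.beq_eq] at h
  have k := allLt_iff.1 chk_mask m hm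
  rw [h.1, Bool.not_true, Bool.false_or] at k
  have k := allLt_iff.1 k S hS
  have h2' : Nat.land S m = 0 := h2
  rw [h2'] at k
  simp only [Nat.beq_refl, Bool.not_true, Bool.false_or, Bool.and_eq_true, Nat.beq_eq,
    Nat.ble_eq] at k
  obtain ⟨⟨k1, k2⟩, k3⟩ := k
  have k1' : S ||| m = S + m := k1
  have k2' : S + m ≤ 511 := k2
  have k3' : (maskB m).testBit (512 * u + S) = true := by
    have := allLt_iff.1 k3 u hu
    rwa [bit_eq] at this
  rw [k1', reach_iff_row hu (by omega)]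
  rw [reach_iff_row hu hS] at h1
  have t : ((rowB f₁ &&& maskB m) <<< m).testBit (512 * u + (S + m)) = true := by
    rw [Nat.testBit_shiftLeft, Nat.testBit_and]
    have : 512 * u + (S + m) - m = 512 * u + S := by omega
    rw [this, h1, k3']
    simp; omega
  rw [← h.2, Nat.testBit_and, Bool.and_eq_true] at t
  exact t.2

def ArcFree (w : ℤ × ℤ) (c i len : ℕ) : Prop :=
  ∀ k ≤ len, ¬ (lab (nb w (dir (i + k)))).testBit c = true

lemma arcFreeB_iff (x y c i len : ℕ) :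
    arcFreeB x y c i len = true ↔ ArcFree ((x : ℤ), (y : ℤ)) c i len := by
  unfold arcFreeB ArcFree
  rw [allLt_iff]
  refine forall_congr' fun k => ?_
  have e : Nat.mod (Nat.add i k) 8 = (i + k) % 8 := rfl
  rw [force_eq, e, ← dir_mod (i + k), lab_nb x y (Nat.mod_lt _ (by norm_num)), bit_eq]
  simp

lemma trans_spec {w : ℤ × ℤ} (hw : lab w ≠ 0) {i j : ℕ} (hi : i < 8) (hj : j < 8)
    (h1 : lab (nb w (dir i)) = 0) (h2 : lab (nb w (dir j)) = 0)
    (hsep : ∀ c < 9, (lab w).testBit c = true →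
      ¬ ArcFree w c i ((j + 8 - i) % 8) ∧ ¬ ArcFree w c j ((i + 8 - j) % 8))
    {u S : ℕ} (hu : u < 18) (hS : S < 512) (hr : reach u (face (nb w (dir i))) S = true)
    (hd : S &&& lab w = 0) : reach u (face (nb w (dir j))) (S ||| lab w) = true := by
  obtain ⟨x, hx, y, hy, rfl⟩ := exists_nat_of_lab hw
  rw [lab_nat] at hw hd hsep ⊢
  rw [lab_nb x y hi] at h1
  rw [lab_nb x y hj] at h2
  rw [face_nb x y hi] at hr
  rw [face_nb x y hj]
  have k := allLt_iff.1 (allLt_iff.1 chk_trans x hx) y hy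
  unfold transB at k
  rw [Bool.or_eq_true, Nat.beq_eq] at k
  have k := allLt_iff.1 (k.resolve_left hw) i hi
  rw [h1, Nat.beq_refl, Bool.not_true, Bool.false_or] at k
  have k := allLt_iff.1 k j hj
  have hs : sepB x y i j = true := by
    unfold sepB
    rw [allLt_iff]
    intro c hc
    cases hb : bit (labN x y) c
    · rfl
    · rw [bit_eq] at hb
      obtain ⟨a, b⟩ := hsep c hc hb
      rw [← arcFreeB_iff, Bool.not_eq_true] at a b
      have e1 : Nat.mod (Nat.sub (Nat.add j 8) i) 8 = (j + 8 - i) % 8 := rfl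
      have e2 : Nat.mod (Nat.sub (Nat.add i 8) j) 8 = (i + 8 - j) % 8 := rfl
      rw [e1, e2, a, b]; rfl
  rw [h2, hs, Nat.beq_refl, Bool.not_true, Bool.false_or, Bool.false_or, force_eq, force_eq,
    force_eq] at k
  exact closed_spec (labN_lt x y) k hu hS hr hd

end Pool.Agent.Lib.MP_7161a7_co
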