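import Mathlib

/-! Drawings of graphs in the plane, thrackles and maximal thrackles. -/

namespace Pool.Agent.Lib.MP_7161a7_co

/-- The plane. -/
abbrev Plane : Type := ℝ × ℝ

/-- `A` is a simple arc (an injective continuous image of the unit interval) from `x` to `y`. -/
def IsArc (A : Set Plane) (x y : Plane) : Prop :=
  ∃ γ : Path x y, Function.Injective γ ∧ Set.range γ = A

/-- A drawing of a simple graph: distinct points for the vertices, and for each edge a simple arc
joining its two end points and passing through no other vertex. -/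
structure Drawing {V : Type} (G : SimpleGraph V) where
  pos : V → Plane
  pos_injective : Function.Injective pos
  arc : Sym2 V → Set Plane
  isArc : ∀ u v, G.Adj u v → IsArc (arc s(u, v)) (pos u) (pos v)
  avoids : ∀ u v w, G.Adj u v → pos w ∈ arc s(u, v) → w = u ∨ w = v

/-- Proper crossing, chart form: a homeomorphism from an open neighbourhood of `p` onto an open
subset of the plane sends `p` to the origin, `A` to the first axis and `B` to the second axis. -/
def ChartCrossing (A B : Set Plane) (p : Plane) : Prop :=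
  ∃ φ : OpenPartialHomeomorph Plane Plane, p ∈ φ.source ∧ φ p = 0 ∧
    ∀ q ∈ φ.source, (q ∈ A ↔ (φ q).2 = 0) ∧ (q ∈ B ↔ (φ q).1 = 0)

/-- Proper crossing, side form: `A` passes from one side of `B` to the other at `p`.  For some open
neighbourhood `U` of `p`, arbitrarily near `p` there are two points of `A` off `B` that no path in
`U \ B` joins. -/
def SideCrossing (A B : Set Plane) (p : Plane) : Prop :=
  ∃ U : Set Plane, IsOpen U ∧ p ∈ U ∧ ∀ W ∈ nhds p, ∃ q₁ ∈ A ∩ W, ∃ q₂ ∈ A ∩ W,
    q₁ ∈ U \ B ∧ q₂ ∈ U \ B ∧ ¬ JoinedIn (U \ B) q₁ q₂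

/-- The arcs `A` and `B` of the edges `e` and `f` have exactly one point in common: a shared end
point, or, when `e` and `f` share no vertex, a crossing in the sense of `cross`. -/
def MeetOnce {V : Type} (cross : Set Plane → Set Plane → Plane → Prop) (pos : V → Plane)
    (e f : Sym2 V) (A B : Set Plane) : Prop :=
  (∃ w, w ∈ e ∧ w ∈ f ∧ A ∩ B = {pos w}) ∨
    ((∀ w, w ∈ e → w ∉ f) ∧ ∃ p, A ∩ B = {p} ∧ cross A B p)

/-- The drawing is a thrackle: any two distinct edges meet exactly once. -/
def Drawing.IsThrackle {V : Type} {G : SimpleGraph V} (D : Drawing G)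
    (cross : Set Plane → Set Plane → Plane → Prop) : Prop :=
  ∀ e ∈ G.edgeSet, ∀ f ∈ G.edgeSet, e ≠ f → MeetOnce cross D.pos e f (D.arc e) (D.arc f)

/-- No new edge can be added: there are no two distinct non-adjacent vertices `u`, `v` and simple
arc `A` from `u` to `v` through no other vertex that meets every edge exactly once. -/
def Drawing.NoNewEdge {V : Type} {G : SimpleGraph V} (D : Drawing G)
    (cross : Set Plane → Set Plane → Plane → Prop) : Prop :=
  ¬ ∃ (u v : V) (A : Set Plane), u ≠ v ∧ ¬ G.Adj u v ∧ IsArc A (D.pos u) (D.pos v) ∧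
    (∀ w, D.pos w ∈ A → w = u ∨ w = v) ∧
    ∀ f ∈ G.edgeSet, MeetOnce cross D.pos s(u, v) f A (D.arc f)

/-- A maximal thrackle. -/
def Drawing.IsMaximalThrackle {V : Type} {G : SimpleGraph V} (D : Drawing G)
    (cross : Set Plane → Set Plane → Plane → Prop) : Prop :=
  D.IsThrackle cross ∧ D.NoNewEdge cross

end Pool.Agent.Lib.MP_7161a7_co
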