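import Pool.Agent.Lib.MP_7161a7_co.Bridge

/-! The nine-arc matching thrackle and its maximality. -/

namespace Pool.Agent.Lib.MP_7161a7_co

open Set Metric Filter Topology

/-- The arc number `c`. -/
def arcSet (c : ℕ) : Set Plane := {q | (lab (idx q)).testBit c = true}

lemma isArc_arcSet {c : ℕ} (hc : c < 9) : IsArc (arcSet c) (toP (endPt c 0)) (toP (endPt c 1)) := by
  have h := isArc_poly (len_pos hc) (unit_pt hc) (cell_inj hc)
  have e : {q | ∃ j ≤ 2 * lenTab c, cellOf (pt c) j = idx q} = arcSet c := by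
    ext q; exact lab_iff hc _
  rw [e] at h
  simpa [endPt] using h

lemma nb_zero (w : ℤ × ℤ) : nb w (0, 0) = w := by
  simp [nb, step]

lemma arc_inter {c d : ℕ} (hc : c < 9) (hd : d < 9) (hcd : c ≠ d) :
    arcSet c ∩ arcSet d = {toP (crossPt c d)} := by
  ext q
  constructor
  · rintro ⟨h1, h2⟩
    have := cross_unique hc hd hcd h1 h2
    simp only [idx, Prod.mk.injEq] at this
    exact Prod.ext (eq_int_of_kk this.1) (eq_int_of_kk this.2)
  · rintro rfl
    obtain ⟨h1, h2, -⟩ := cross_spec hc hd hcd (idx_toP (crossPt c d))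
    exact ⟨h1, h2⟩

lemma local_axes {a : ℤ × ℤ} {c d : ℕ} (h1 : (lab (2 * a.1, 2 * a.2)).testBit c = true)
    (h2 : (lab (2 * a.1, 2 * a.2)).testBit d = true)
    (h : ∀ i < 8, ((lab (nb (2 * a.1, 2 * a.2) (dir i))).testBit c = true ↔ (dir i).2 = 0) ∧
        ((lab (nb (2 * a.1, 2 * a.2) (dir i))).testBit d = true ↔ (dir i).1 = 0))
    {q : Plane} (hq : q ∈ ball (toP a) 1) :
    (q ∈ arcSet c ↔ q.2 - (toP a).2 = 0) ∧ (q ∈ arcSet d ↔ q.1 - (toP a).1 = 0) := by
  have e : idx q = nb (2 * a.1, 2 * a.2) (cls (toP a) q) := idx_near_int a q hq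
  by_cases hqa : q = toP a
  · rw [hqa, cls_self, nb_zero] at e
    simp only [arcSet, mem_ofPred_eq, hqa, e, h1, h2, sub_self, and_self]
  · obtain ⟨i, hi, ci⟩ := cls_eq_dir hqa
    simp only [arcSet, mem_ofPred_eq]
    rw [e, ci, (h i hi).1, (h i hi).2, ← ci]
    simp only [cls, sg_eq_zero, and_self]

lemma chartCrossing_arcSet {c d : ℕ} (hc : c < 9) (hd : d < 9) (hcd : c ≠ d) :
    ChartCrossing (arcSet c) (arcSet d) (toP (crossPt c d)) := by
  obtain ⟨h1, h2, h | h⟩ := cross_spec hc hd hcd rfl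
  · refine ⟨(Homeomorph.subRight (toP (crossPt c d))).toOpenPartialHomeomorph.restrOpen
      (ball (toP (crossPt c d)) 1) isOpen_ball, by simp, by simp, fun q hq => ?_⟩
    have hq' : q ∈ ball (toP (crossPt c d)) 1 := by simpa using hq
    simpa using local_axes h1 h2 h hq'
  · refine ⟨((Homeomorph.subRight (toP (crossPt c d))).trans
      (Homeomorph.prodComm ℝ ℝ)).toOpenPartialHomeomorph.restrOpen
      (ball (toP (crossPt c d)) 1) isOpen_ball, by simp, by simp, fun q hq => ?_⟩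
    have hq' : q ∈ ball (toP (crossPt c d)) 1 := by simpa using hq
    simpa using (local_axes h2 h1 h hq').symm

lemma lab_eq_zero_iff (w : ℤ × ℤ) : lab w = 0 ↔ ∀ c < 9, ¬ (lab w).testBit c = true := by
  constructor
  · intro h c _; simp [h]
  · intro h
    apply Nat.eq_of_testBit_eq
    intro i
    rw [Nat.zero_testBit]
    by_cases hi : i < 9
    · simpa using h i hi
    · refine Nat.testBit_lt_two_pow (lt_of_lt_of_le (labN_lt _ _) ?_)
      exact Nat.pow_le_pow_right (n := 2) (by norm_num) (show 9 ≤ i by omega)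

lemma lab_testBit_ge (w : ℤ × ℤ) {i : ℕ} (hi : 9 ≤ i) : (lab w).testBit i = false :=
  Nat.testBit_lt_two_pow (lt_of_lt_of_le (labN_lt _ _)
    (Nat.pow_le_pow_right (n := 2) (by norm_num) hi))

section NoArc

variable {g : ℝ → Plane} {τ : ℕ → ℝ}

open Classical in
/-- The set of arcs met before time `t`. -/
noncomputable def state (τ : ℕ → ℝ) (t : ℝ) : ℕ := Nat.ofBits fun c : Fin 9 => decide (τ c < t)

lemma state_lt (t : ℝ) : state τ t < 512 := Nat.ofBits_lt_two_pow _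

lemma state_bit (t : ℝ) {c : ℕ} (hc : c < 9) : (state τ t).testBit c = true ↔ τ c < t := by
  simp [state, Nat.testBit_ofBits_lt _ _ hc]

lemma state_bit_ge (t : ℝ) {c : ℕ} (hc : 9 ≤ c) : (state τ t).testBit c = false := by
  simp [state, Nat.testBit_ofBits_ge _ _ hc]

lemma eq_of_bits {a b : ℕ} (h1 : ∀ i < 9, (a.testBit i = true ↔ b.testBit i = true))
    (h2 : ∀ i, 9 ≤ i → a.testBit i = false ∧ b.testBit i = false) : a = b := by
  apply Nat.eq_of_testBit_eq
  intro i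
  by_cases hi : i < 9
  · exact Bool.eq_iff_iff.2 (h1 i hi)
  · rw [(h2 i (by omega)).1, (h2 i (by omega)).2]

lemma exists_window (hg : Continuous g) (t₀ : ℝ) {V : Set Plane} (hV : V ∈ 𝓝 (g t₀)) :
    ∃ δ > 0, ∃ ε > 0, ball (g t₀) δ ⊆ V ∧
      (∀ q ∈ ball (g t₀) δ, idx q = nb (idx (g t₀)) (cls (g t₀) q)) ∧
      (∀ t, |t - t₀| < ε → g t ∈ ball (g t₀) δ) ∧
      ∀ c < 9, |τ c - t₀| < ε → τ c = t₀ := by
  obtain ⟨δ₁, h₁, H₁⟩ := idx_near (g t₀)
  obtain ⟨δ₂, h₂, H₂⟩ := Metric.mem_nhds_iff.1 hV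
  have hδ : 0 < min δ₁ δ₂ := lt_min h₁ h₂
  obtain ⟨ε₁, e₁, E₁⟩ := Metric.continuous_iff.1 hg t₀ _ hδ
  have : ∀ᶠ ε in 𝓝[>] (0 : ℝ), ∀ c : Fin 9, |τ c - t₀| < ε → τ c = t₀ := by
    rw [eventually_all]
    intro c
    by_cases h : τ c = t₀
    · exact Eventually.of_forall fun _ _ => h
    · have hp : 0 < |τ c - t₀| := abs_pos.2 (sub_ne_zero.2 h)
      filter_upwards [Ioo_mem_nhdsGT hp] with ε hε hlt
      exact absurd hlt (not_lt.2 hε.2.le)
  obtain ⟨ε, hε1, hε2⟩ := (this.and (Ioo_mem_nhdsGT e₁)).exists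
  refine ⟨min δ₁ δ₂, hδ, ε, hε2.1, (ball_subset_ball (min_le_right _ _)).trans H₂,
    fun q hq => H₁ q (ball_subset_ball (min_le_left _ _) hq), fun t ht => ?_,
    fun c hc => hε1 ⟨c, hc⟩⟩
  exact E₁ t (by rw [Real.dist_eq]; exact ht.trans hε2.2)

lemma joined_along (hg : Continuous g) {a b s t : ℝ} {X : Set Plane} (hs : s ∈ Ioo a b)
    (ht : t ∈ Ioo a b) (hX : ∀ r ∈ Ioo a b, g r ∈ X) : JoinedIn X (g s) (g t) := by
  have h : IsPathConnected (g '' Ioo a b) :=
    ((convex_Ioo a b).isPathConnected ⟨s, hs⟩).image hg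
  refine (h.joinedIn _ (mem_image_of_mem g hs) _ (mem_image_of_mem g ht)).mono ?_
  rintro _ ⟨r, hr, rfl⟩
  exact hX r hr

/-- The core argument: no curve joins end points of two different arcs and crosses each other arc
exactly once. -/
theorem no_curve {a e b e' : ℕ} (ha : a < 9) (he : e < 2) (hb : b < 9) (he' : e' < 2)
    (hab : a ≠ b) (hg : Continuous g) (hinj : InjOn g (Icc 0 1))
    (h0 : g 0 = toP (endPt a e)) (h1 : g 1 = toP (endPt b e'))
    (hτ : ∀ c < 9, τ c ∈ Icc (0 : ℝ) 1)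
    (hmeet : ∀ c < 9, ∀ t ∈ Icc (0 : ℝ) 1, g t ∈ arcSet c ↔ t = τ c)
    (hτa : τ a = 0) (hτb : τ b = 1)
    (hcross : ∀ c < 9, c ≠ a → c ≠ b → SideCrossing (g '' Icc 0 1) (arcSet c) (g (τ c))) :
    False := by
  have hu : 2 * a + e < 18 := by omega
  set Good : ℝ → Prop := fun t => reach (2 * a + e) (face (idx (g t))) (state τ t) = true
    with hGood
  have free : ∀ t ∈ Icc (0 : ℝ) 1, (∀ c < 9, τ c ≠ t) → lab (idx (g t)) = 0 := by
    intro t ht h
    rw [lab_eq_zero_iff]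
    intro c hc hbit
    exact h c hc ((hmeet c hc t ht).1 hbit).symm
  have only0 : ∀ c < 9, τ c = 0 → c = a := by
    intro c hc h
    have := (hmeet c hc 0 ⟨le_rfl, zero_le_one⟩).2 h.symm
    rw [h0] at this
    exact end_lab ha he hc this
  have only1 : ∀ c < 9, τ c = 1 → c = b := by
    intro c hc h
    have := (hmeet c hc 1 ⟨zero_le_one, le_rfl⟩).2 h.symm
    rw [h1] at this
    exact end_lab hb he' hc this
  -- the start
  have start : ∃ ε > 0, ∀ t ∈ Ioo (0 : ℝ) ε, t ≤ 1 → Good t := by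
    obtain ⟨δ, hδ, ε, hε, -, hidx, hball, hτ'⟩ := exists_window (τ := τ) hg 0 univ_mem
    refine ⟨ε, hε, fun t ht ht1 => ?_⟩
    have htI : t ∈ Icc (0 : ℝ) 1 := ⟨ht.1.le, ht1⟩
    have hne : g t ≠ g 0 := fun h => ht.1.ne' (hinj htI ⟨le_rfl, zero_le_one⟩ h)
    obtain ⟨i, hi, ci⟩ := cls_eq_dir hne
    have hin : |t - 0| < ε := by rw [sub_zero, abs_of_pos ht.1]; exact ht.2
    have e1 := hidx _ (hball t hin)
    rw [ci, h0] at e1
    have e2 : state τ t = 2 ^ a := by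
      refine eq_of_bits (fun c hc => ?_) fun c hc => ⟨state_bit_ge _ hc, ?_⟩
      · rw [state_bit _ hc, Nat.testBit_two_pow]
        simp only [decide_eq_true_eq]
        constructor
        · intro h
          refine (only0 c hc (hτ' c hc ?_)).symm
          rw [sub_zero, abs_of_nonneg (hτ c hc).1]; exact h.trans ht.2
        · rintro rfl; rw [hτa]; exact ht.1
      · rw [Nat.testBit_two_pow]; simp; omega
    have e3 : lab (idx (g t)) = 0 := by
      refine free t htI fun c hc h => ?_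
      have := hτ' c hc (by rw [h]; exact hin)
      rw [h] at this
      exact ht.1.ne' this
    simp only [hGood]
    rw [e2, e1]
    rw [e1] at e3
    exact start_spec ha he hi e3
  -- the end
  have finish : ∃ ε > 0, ∀ t ∈ Ioo (1 - ε) (1 : ℝ), 0 ≤ t → (∀ c < 9, τ c ≠ t) ∧ ¬ Good t := by
    obtain ⟨δ, hδ, ε, hε, -, hidx, hball, hτ'⟩ := exists_window (τ := τ) hg 1 univ_mem
    refine ⟨ε, hε, fun t ht ht0 => ?_⟩
    have htI : t ∈ Icc (0 : ℝ) 1 := ⟨ht0, ht.2.le⟩
    have hne : g t ≠ g 1 := fun h => ht.2.ne (hinj htI ⟨zero_le_one, le_rfl⟩ h)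
    obtain ⟨i, hi, ci⟩ := cls_eq_dir hne
    have hin : |t - 1| < ε := by rw [abs_lt]; constructor <;> linarith [ht.1, ht.2]
    have e1 := hidx _ (hball t hin)
    rw [ci, h1] at e1
    have e2 : state τ t = 511 - 2 ^ b := by
      have k : ∀ b < 9, ∀ c < 9, (Nat.testBit (511 - 2 ^ b) c = true ↔ c ≠ b) := by decide
      refine eq_of_bits (fun c hc => ?_) fun c hc => ⟨state_bit_ge _ hc, ?_⟩
      · rw [state_bit _ hc, k b hb c hc]
        constructor
        · rintro h rfl; rw [hτb] at h; exact absurd ht.2 (not_lt.2 h.le)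
        · intro h
          by_contra hlt
          refine h (only1 c hc (hτ' c hc ?_))
          rw [abs_lt]; constructor <;> linarith [ht.1, (hτ c hc).2, not_lt.1 hlt]
      · refine Nat.testBit_lt_two_pow (lt_of_lt_of_le (lt_of_le_of_lt (Nat.sub_le _ _) (show 511 < 2 ^ 9 by norm_num)) ?_)
        exact Nat.pow_le_pow_right (n := 2) (by norm_num) hc
    have e4 : ∀ c < 9, τ c ≠ t := by
      intro c hc h
      have := hτ' c hc (by rw [h]; exact hin)
      rw [h] at this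
      exact ht.2.ne this
    have e3 : lab (idx (g t)) = 0 := free t htI e4
    refine ⟨e4, ?_⟩
    simp only [hGood]
    rw [e2, e1]
    rw [e1] at e3
    exact finish_spec ha he hb he' hab hi e3
  -- a step at an inner time
  have inner : ∀ t₀ ∈ Ioo (0 : ℝ) 1, ∃ ε > 0, ∀ t₁ ∈ Ioo (t₀ - ε) t₀, 0 < t₁ ∧
      (∀ c < 9, τ c ≠ t₁) ∧ (Good t₁ → ((∀ c < 9, τ c ≠ t₀) → Good t₀) ∧
        ∀ t₂ ∈ Ioo t₀ (t₀ + ε), Good t₂) := by
    intro t₀ ht₀
    have ht₀I : t₀ ∈ Icc (0 : ℝ) 1 := ⟨ht₀.1.le, ht₀.2.le⟩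
    have hU : ∀ c : Fin 9, ∃ U : Set Plane, IsOpen U ∧ g t₀ ∈ U ∧ (τ c = t₀ →
        ∀ W ∈ 𝓝 (g t₀), ∃ q₁ ∈ g '' Icc 0 1 ∩ W, ∃ q₂ ∈ g '' Icc 0 1 ∩ W,
          q₁ ∈ U \ arcSet c ∧ q₂ ∈ U \ arcSet c ∧ ¬ JoinedIn (U \ arcSet c) q₁ q₂) := by
      intro c
      by_cases h : τ c = t₀
      · have hca : (c : ℕ) ≠ a := by
          rintro h'; rw [h', hτa] at h; exact ht₀.1.ne h
        have hcb : (c : ℕ) ≠ b := by
          rintro h'; rw [h', hτb] at h; exact ht₀.2.ne' h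
        obtain ⟨U, hU1, hU2, hU3⟩ := hcross c c.2 hca hcb
        rw [h] at hU2 hU3
        exact ⟨U, hU1, hU2, fun _ => hU3⟩
      · exact ⟨univ, isOpen_univ, mem_univ _, fun h' => absurd h' h⟩
    choose U hUo hUm hUs using hU
    have hV : (⋂ c, U c) ∈ 𝓝 (g t₀) :=
      (isOpen_iInter_of_finite hUo).mem_nhds (mem_iInter.2 hUm)
    obtain ⟨δ, hδ, ε₀, hε₀, hsub, hidx, hball₀, hτ₀⟩ := exists_window (τ := τ) hg t₀ hV
    obtain ⟨ε, hε, hε1, hε2, hε3⟩ : ∃ ε > 0, ε ≤ ε₀ ∧ ε ≤ t₀ ∧ ε ≤ 1 - t₀ :=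
      ⟨min ε₀ (min t₀ (1 - t₀)), lt_min hε₀ (lt_min ht₀.1 (by linarith [ht₀.2])),
        min_le_left _ _, (min_le_right _ _).trans (min_le_left _ _),
        (min_le_right _ _).trans (min_le_right _ _)⟩
    have win : ∀ t, t₀ - ε < t → t < t₀ + ε → t ∈ Icc (0 : ℝ) 1 ∧ g t ∈ ball (g t₀) δ ∧
        ∀ c < 9, τ c = t → t = t₀ := by
      intro t a1 a2
      have hin : |t - t₀| < ε₀ := by rw [abs_lt]; constructor <;> linarith
      refine ⟨⟨by linarith, by linarith⟩, hball₀ t hin, fun c hc h => ?_⟩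
      rw [← h]; exact hτ₀ c hc (by rw [h]; exact hin)
    have offarc : ∀ t, t₀ - ε < t → t < t₀ + ε → t ≠ t₀ → ∀ c < 9, g t ∉ arcSet c := by
      intro t a1 a2 a3 c hc h
      obtain ⟨w1, -, w3⟩ := win t a1 a2
      exact a3 (w3 c hc ((hmeet c hc t w1).1 h).symm)
    have dirOf : ∀ t, t₀ - ε < t → t < t₀ + ε → t ≠ t₀ → ∃ i < 8, cls (g t₀) (g t) = dir i ∧
        idx (g t) = nb (idx (g t₀)) (dir i) ∧ lab (nb (idx (g t₀)) (dir i)) = 0 := by
      intro t a1 a2 a3
      obtain ⟨w1, w2, w3⟩ := win t a1 a2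
      obtain ⟨i, hi, ci⟩ := cls_eq_dir (fun h => a3 (hinj w1 ht₀I h))
      have e1 := hidx _ w2
      rw [ci] at e1
      refine ⟨i, hi, ci, e1, ?_⟩
      rw [← e1]
      exact free t w1 fun c hc h => a3 (w3 c hc h)
    have lt_iff : ∀ t, t₀ - ε < t → t ≤ t₀ → ∀ c < 9, (τ c < t ↔ τ c < t₀) := by
      intro t a1 a2 c hc
      refine ⟨fun h => h.trans_le a2, fun h => ?_⟩
      by_contra h'
      exact h.ne ((win (τ c) (by linarith [not_lt.1 h']) (by linarith)).2.2 c hc rfl)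
    have gt_iff : ∀ t, t₀ < t → t < t₀ + ε → ∀ c < 9, (τ c < t ↔ τ c ≤ t₀) := by
      intro t a1 a2 c hc
      refine ⟨fun h => ?_, fun h => h.trans_lt a1⟩
      by_contra h'
      have h'' := not_le.1 h'
      exact h''.ne' ((win (τ c) (by linarith) (by linarith)).2.2 c hc rfl)
    have bit0 : ∀ c < 9, ((lab (idx (g t₀))).testBit c = true ↔ t₀ = τ c) :=
      fun c hc => hmeet c hc t₀ ht₀I
    refine ⟨ε, hε, fun t₁ ht₁ => ⟨by linarith [ht₁.1], fun c hc h => ?_, fun hG => ?_⟩⟩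
    · exact ht₁.2.ne ((win t₁ ht₁.1 (by linarith [ht₁.2])).2.2 c hc h)
    obtain ⟨i, hi, ci, ei, li⟩ := dirOf t₁ ht₁.1 (by linarith [ht₁.2]) ht₁.2.ne
    simp only [hGood] at hG ⊢
    rw [ei] at hG
    constructor
    · intro hfree
      have e2 : state τ t₀ = state τ t₁ := by
        refine eq_of_bits (fun c hc => ?_) fun c hc => ⟨state_bit_ge _ hc, state_bit_ge _ hc⟩
        rw [state_bit _ hc, state_bit _ hc, lt_iff t₁ ht₁.1 ht₁.2.le c hc]
      rw [e2, ← face_const (free t₀ ht₀I hfree) hi]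
      exact hG
    · intro t₂ ht₂
      obtain ⟨j, hj, cj, ej, lj⟩ := dirOf t₂ (by linarith [ht₂.1]) ht₂.2 ht₂.1.ne'
      have e2 : state τ t₂ = state τ t₁ ||| lab (idx (g t₀)) := by
        refine eq_of_bits (fun c hc => ?_) fun c hc => ⟨state_bit_ge _ hc, ?_⟩
        · rw [Nat.testBit_or, Bool.or_eq_true, state_bit _ hc, state_bit _ hc,
            lt_iff t₁ ht₁.1 ht₁.2.le c hc, gt_iff t₂ ht₂.1 ht₂.2 c hc, bit0 c hc,
            le_iff_lt_or_eq, eq_comm]
        · rw [Nat.testBit_or, state_bit_ge _ hc, lab_testBit_ge _ hc]; rfl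
      rw [e2, ej]
      by_cases hl : lab (idx (g t₀)) = 0
      · rw [hl, Nat.or_zero, face_const hl hj, ← face_const hl hi]
        exact hG
      refine trans_spec hl hi hj li lj (fun c hc hbit => ?_) hu (state_lt _) hG ?_
      · -- the curve passes across arc `c`
        have htc : τ c = t₀ := ((bit0 c hc).1 hbit).symm
        have hB : ∀ q ∈ ball (g t₀) δ, q ∈ arcSet c ↔
            (lab (nb (idx (g t₀)) (cls (g t₀) q))).testBit c = true := by
          intro q hq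
          rw [← hidx q hq]; rfl
        have hsub' : ball (g t₀) δ \ arcSet c ⊆ U ⟨c, hc⟩ \ arcSet c :=
          sdiff_subset_sdiff_left (hsub.trans (iInter_subset _ _))
        have notJ : ¬ JoinedIn (ball (g t₀) δ \ arcSet c) (g t₁) (g t₂) := by
          intro hJ
          have hK : IsCompact (g '' (Icc 0 1 \ Ioo (t₀ - ε) (t₀ + ε))) :=
            (isCompact_Icc.diff isOpen_Ioo).image hg
          have hW : (g '' (Icc 0 1 \ Ioo (t₀ - ε) (t₀ + ε)))ᶜ ∈ 𝓝 (g t₀) := by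
            refine hK.isClosed.isOpen_compl.mem_nhds ?_
            rintro ⟨r, ⟨hr1, hr2⟩, hr⟩
            rw [hinj hr1 ht₀I hr] at hr2
            exact hr2 ⟨by linarith, by linarith⟩
          obtain ⟨q₁, hq₁, q₂, hq₂, m₁, m₂, hnJ⟩ := hUs ⟨c, hc⟩ htc _ hW
          have toT : ∀ q ∈ g '' Icc 0 1 ∩ (g '' (Icc 0 1 \ Ioo (t₀ - ε) (t₀ + ε)))ᶜ,
              q ∉ arcSet c → JoinedIn (ball (g t₀) δ \ arcSet c) q (g t₁) := by
            rintro _ ⟨⟨r, hr, rfl⟩, hr'⟩ hq
            have hrI : r ∈ Ioo (t₀ - ε) (t₀ + ε) := by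
              by_contra hn
              exact hr' ⟨r, ⟨hr, hn⟩, rfl⟩
            rcases lt_trichotomy r t₀ with h | h | h
            · refine joined_along hg (a := t₀ - ε) (b := t₀) ⟨hrI.1, h⟩ ht₁ fun s hs => ?_
              exact ⟨(win s hs.1 (by linarith [hs.2])).2.1,
                offarc s hs.1 (by linarith [hs.2]) hs.2.ne c hc⟩
            · exact absurd ((hmeet c hc r hr).2 (h.trans htc.symm)) hq
            · refine (joined_along hg (a := t₀) (b := t₀ + ε) ⟨h, hrI.2⟩ ht₂ fun s hs => ?_).trans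
                hJ.symm
              exact ⟨(win s (by linarith [hs.1]) hs.2).2.1,
                offarc s (by linarith [hs.1]) hs.2 hs.1.ne' c hc⟩
          exact hnJ (((toT q₁ hq₁ m₁.2).trans (toT q₂ hq₂ m₂.2).symm).mono hsub')
        have b₁ := (win t₁ ht₁.1 (by linarith [ht₁.2])).2.1
        have b₂ := (win t₂ (by linarith [ht₂.1]) ht₂.2).2.1
        constructor
        · intro hA
          exact notJ (joined_of_arcFree
            (blocked := fun s => (lab (nb (idx (g t₀)) s)).testBit c = true) hδ hB hi hj b₁ b₂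
            ci cj hA)
        · intro hA
          exact notJ (joined_of_arcFree
            (blocked := fun s => (lab (nb (idx (g t₀)) s)).testBit c = true) hδ hB hj hi b₂ b₁
            cj ci hA).symm
      · refine eq_of_bits (fun c hc => ?_) fun c hc => ⟨?_, Nat.zero_testBit _⟩
        · rw [Nat.testBit_and, Bool.and_eq_true, state_bit _ hc, lt_iff t₁ ht₁.1 ht₁.2.le c hc,
            bit0 c hc, Nat.zero_testBit]
          constructor
          · rintro ⟨x, y⟩; exact absurd y x.ne'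
          · intro h; exact absurd h (by simp)
        · rw [Nat.testBit_and, state_bit_ge _ hc]; rfl
  -- continuous induction
  set A : Set ℝ := {t | ∀ s ∈ Ioo (0 : ℝ) t, (∀ c < 9, τ c ≠ s) → Good s} with hA
  have hclosed : IsClosed A := by
    rw [← isOpen_compl_iff, isOpen_iff_mem_nhds]
    intro t ht
    simp only [hA, mem_compl_iff, mem_ofPred_eq, not_forall] at ht
    obtain ⟨s, hs, hs1, hs2⟩ := ht
    filter_upwards [Ioi_mem_nhds hs.2] with r hr hrA
    exact hs2 (hrA s ⟨hs.1, hr⟩ hs1)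
  have hall : Icc (0 : ℝ) 1 ⊆ A := by
    refine (hclosed.inter isClosed_Icc).Icc_subset_of_forall_exists_gt ?_ ?_
    · intro s hs; exact absurd hs.2 (not_lt.2 hs.1.le)
    · rintro x ⟨hxA, hx0, hx1⟩ y hy
      have hy' : x < y := hy
      rcases hx0.eq_or_lt with rfl | hx0'
      · obtain ⟨ε, hε, H⟩ := start
        refine ⟨min (min ε 1) y, fun s hs _ => H s ⟨hs.1, ?_⟩ ?_,
          lt_min (lt_min hε one_pos) hy', min_le_right _ _⟩
        · exact hs.2.trans_le ((min_le_left _ _).trans (min_le_left _ _))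
        · exact hs.2.le.trans ((min_le_left _ _).trans (min_le_right _ _))
      · obtain ⟨ε, hε, H⟩ := inner x ⟨hx0', hx1⟩
        have hm : x - ε / 2 ∈ Ioo (x - ε) x := ⟨by linarith, by linarith⟩
        obtain ⟨p1, p2, p3⟩ := H _ hm
        obtain ⟨p4, p5⟩ := p3 (hxA _ ⟨p1, hm.2⟩ p2)
        refine ⟨min (x + ε) y, fun s hs hfree => ?_, lt_min (by linarith) hy', min_le_right _ _⟩
        rcases lt_trichotomy s x with h | h | h
        · exact hxA s ⟨hs.1, h⟩ hfree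
        · subst h; exact p4 hfree
        · exact p5 s ⟨h, hs.2.trans_le (min_le_left _ _)⟩
  obtain ⟨ε, hε, H⟩ := finish
  have h1A := hall (right_mem_Icc.2 zero_le_one)
  have hm : max (1 - ε / 2) (1 / 2) ∈ Ioo (1 - ε) (1 : ℝ) :=
    ⟨lt_max_of_lt_left (by linarith), max_lt (by linarith) (by norm_num)⟩
  have hm0 : (0 : ℝ) < max (1 - ε / 2) (1 / 2) := lt_max_of_lt_right (by norm_num)
  obtain ⟨p1, p2⟩ := H _ hm hm0.le
  exact p2 (h1A _ ⟨hm0, hm.2⟩ p1)

end NoArc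

lemma ChartCrossing.side {A B : Set Plane} {p : Plane} (h : ChartCrossing A B p) :
    SideCrossing A B p := by
  obtain ⟨φ, hp, h0, H⟩ := h
  refine ⟨φ.source, φ.open_source, hp, fun W hW => ?_⟩
  have ht : (0 : Plane) ∈ φ.target := h0 ▸ φ.map_source hp
  have hs : φ.symm 0 = p := by rw [← h0, φ.left_inv hp]
  have hc : ContinuousAt φ.symm 0 := φ.continuousAt_symm ht
  have hW' : φ.symm ⁻¹' W ∩ φ.target ∈ 𝓝 (0 : Plane) :=
    inter_mem (hc.preimage_mem_nhds (hs ▸ hW)) (φ.open_target.mem_nhds ht)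
  obtain ⟨r, hr, hball⟩ := Metric.mem_nhds_iff.1 hW'
  have key : ∀ x : ℝ, |x| < r → x ≠ 0 → φ.symm (x, 0) ∈ A ∩ W ∧
      φ.symm (x, 0) ∈ φ.source \ B ∧ φ (φ.symm (x, 0)) = (x, 0) := by
    intro x hx hx0
    have hm : ((x, 0) : Plane) ∈ ball (0 : Plane) r := by
      rw [mem_ball, Prod.dist_eq, max_lt_iff]
      simpa [Real.dist_eq] using ⟨hx, hr⟩
    obtain ⟨m1, m2⟩ := hball hm
    have e := φ.right_inv m2
    have hsrc := φ.map_target m2
    refine ⟨⟨(H _ hsrc).1.2 (by rw [e]), m1⟩, ⟨hsrc, fun hB => hx0 ?_⟩, e⟩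
    have := (H _ hsrc).2.1 hB
    rwa [e] at this
  obtain ⟨a1, a2, a3⟩ := key (r / 2) (by rw [abs_lt]; constructor <;> linarith) (by linarith)
  obtain ⟨b1, b2, b3⟩ := key (-(r / 2)) (by rw [abs_lt]; constructor <;> linarith) (by linarith)
  refine ⟨_, a1, _, b1, a2, b2, ?_⟩
  rintro ⟨γ, hγ⟩
  have hcont : Continuous fun t => (φ (γ t)).1 :=
    continuous_fst.comp (φ.continuousOn.comp_continuous γ.continuous fun t => (hγ t).1)
  have hz : (0 : ℝ) ∈ Icc ((φ (γ 1)).1) ((φ (γ 0)).1) := by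
    rw [γ.source, γ.target, a3, b3]
    constructor <;> simp <;> linarith
  obtain ⟨t, ht0⟩ := intermediate_value_univ 1 0 hcont hz
  exact (hγ t).2 ((H _ (hγ t).1).2.2 ht0)

/-- The perfect matching on nine pairs. -/
def matching : SimpleGraph (Fin 9 × Fin 2) where
  Adj u v := u.1 = v.1 ∧ u.2 ≠ v.2
  symm := ⟨fun _ _ h => ⟨h.1.symm, h.2.symm⟩⟩
  loopless := ⟨fun _ h => h.2 rfl⟩

def edge (c : Fin 9) : Sym2 (Fin 9 × Fin 2) := s((c, 0), (c, 1))

lemma mem_edge {c : Fin 9} {w : Fin 9 × Fin 2} : w ∈ edge c ↔ w.1 = c := by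
  revert c w; decide

lemma edgeSet_matching : matching.edgeSet = range edge := by
  ext f
  induction f using Sym2.ind with
  | h u v =>
    rw [SimpleGraph.mem_edgeSet]
    change (u.1 = v.1 ∧ u.2 ≠ v.2) ↔ ∃ c, edge c = s(u, v)
    revert u v; decide

lemma edge_injective : Function.Injective edge := by
  intro c d h
  have : ((c, 0) : Fin 9 × Fin 2) ∈ edge d := h ▸ mem_edge.2 rfl
  exact mem_edge.1 this

def arcOf (f : Sym2 (Fin 9 × Fin 2)) : Set Plane := {q | ∃ w ∈ f, q ∈ arcSet w.1}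

lemma arcOf_edge (c : Fin 9) : arcOf (edge c) = arcSet c := by
  ext q
  constructor
  · rintro ⟨w, hw, hq⟩
    rwa [mem_edge.1 hw] at hq
  · intro hq
    exact ⟨(c, 0), mem_edge.2 rfl, hq⟩

lemma adj_edge {u v : Fin 9 × Fin 2} (h : matching.Adj u v) : s(u, v) = edge u.1 := by
  change (u.1 = v.1 ∧ u.2 ≠ v.2) at h
  revert u v; decide

/-- The drawing. -/
def drawing : Drawing matching where
  pos v := toP (endPt v.1 v.2)
  pos_injective := by
    intro u v h
    obtain ⟨h1, h2⟩ := end_inj u.1.2 u.2.2 v.1.2 v.2.2 h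
    exact Prod.ext (Fin.ext h1) (Fin.ext h2)
  arc := arcOf
  isArc := by
    rintro ⟨c, e⟩ ⟨d, e'⟩ h
    rw [adj_edge h, arcOf_edge]
    obtain ⟨h1, h2⟩ := h
    simp only at h1 h2
    subst h1
    fin_cases e <;> fin_cases e'
    · exact absurd rfl h2
    · exact isArc_arcSet c.2
    · exact (isArc_arcSet c.2).symm
    · exact absurd rfl h2
  avoids := by
    intro u v w h hw
    rw [adj_edge h, arcOf_edge] at hw
    have e : u.1 = w.1 := Fin.ext (end_lab w.1.2 w.2.2 u.1.2 hw)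
    have : w ∈ s(u, v) := by rw [adj_edge h]; exact mem_edge.2 e.symm
    exact Sym2.mem_iff.1 this

lemma drawing_isThrackle : drawing.IsThrackle ChartCrossing := by
  intro e he f hf hef
  rw [edgeSet_matching] at he hf
  obtain ⟨c, rfl⟩ := he
  obtain ⟨d, rfl⟩ := hf
  have hcd : (c : ℕ) ≠ d := fun h => hef (by rw [Fin.ext h])
  refine Or.inr ⟨fun w h1 h2 => hcd ?_, toP (crossPt c d), ?_, ?_⟩
  · rw [← mem_edge.1 h1, ← mem_edge.1 h2]
  · change arcOf _ ∩ arcOf _ = _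
    rw [arcOf_edge, arcOf_edge, arc_inter c.2 d.2 hcd]
  · change ChartCrossing (arcOf _) (arcOf _) _
    rw [arcOf_edge, arcOf_edge]
    exact chartCrossing_arcSet c.2 d.2 hcd

lemma drawing_noNewEdge : drawing.NoNewEdge SideCrossing := by
  rintro ⟨u, v, A, huv, hadj, ⟨γ, hγ, rfl⟩, -, H⟩
  have hab : u.1 ≠ v.1 := fun h => hadj ⟨h, fun h' => huv (Prod.ext h h')⟩
  have hrange : γ.extend '' Icc 0 1 = range γ := by
    rw [γ.extend_range.symm]
    refine Subset.antisymm (image_subset_range _ _) ?_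
    rw [γ.extend_range]
    rintro _ ⟨t, rfl⟩
    exact ⟨t, t.2, γ.extend_extends' t⟩
  have hinj : InjOn γ.extend (Icc 0 1) := by
    intro s hs t ht h
    rw [γ.extend_apply hs, γ.extend_apply ht] at h
    exact congrArg Subtype.val (hγ h)
  have key : ∀ c : ℕ, ∃ t : ℝ, ∀ hc : c < 9, t ∈ Icc (0 : ℝ) 1 ∧
      (∀ s ∈ Icc (0 : ℝ) 1, γ.extend s ∈ arcSet c ↔ s = t) ∧ (c = u.1 → t = 0) ∧ (c = v.1 → t = 1) ∧
      (c ≠ u.1 → c ≠ v.1 → SideCrossing (γ.extend '' Icc 0 1) (arcSet c) (γ.extend t)) := by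
    intro c
    by_cases hc : c < 9
    swap
    · exact ⟨0, fun h => absurd h hc⟩
    have Hc := H (edge ⟨c, hc⟩) (by rw [edgeSet_matching]; exact mem_range_self _)
    change MeetOnce SideCrossing drawing.pos _ _ _ (arcOf _) at Hc
    rw [arcOf_edge] at Hc
    have time : ∀ p, range γ ∩ arcSet c = {p} → ∀ t ∈ Icc (0 : ℝ) 1, γ.extend t = p →
        ∀ s ∈ Icc (0 : ℝ) 1, γ.extend s ∈ arcSet c ↔ s = t := by
      intro p hp t ht e s hs
      constructor
      · intro h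
        have : γ.extend s ∈ range γ ∩ arcSet c := ⟨hrange ▸ mem_image_of_mem _ hs, h⟩
        rw [hp, ← e] at this
        exact hinj hs ht this
      · rintro rfl
        have : p ∈ range γ ∩ arcSet c := by rw [hp]; rfl
        rw [e]; exact this.2
    rcases Hc with ⟨w, hw1, hw2, hw3⟩ | ⟨hn, p, hp, hcr⟩
    · have hwc : (w.1 : ℕ) = c := congrArg Fin.val (mem_edge.1 hw2)
      rcases Sym2.mem_iff.1 hw1 with rfl | rfl
      · refine ⟨0, fun _ => ⟨⟨le_rfl, zero_le_one⟩,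
          time _ hw3 0 ⟨le_rfl, zero_le_one⟩ γ.extend_zero, fun _ => rfl,
          fun h => absurd (Fin.ext (hwc.trans h)) hab, fun h => absurd hwc.symm h⟩⟩
      · refine ⟨1, fun _ => ⟨⟨zero_le_one, le_rfl⟩,
          time _ hw3 1 ⟨zero_le_one, le_rfl⟩ γ.extend_one,
          fun h => absurd (Fin.ext (hwc.trans h)).symm hab, fun _ => rfl,
          fun _ h => absurd hwc.symm h⟩⟩
    · have : p ∈ range γ ∩ arcSet c := by rw [hp]; rfl
      obtain ⟨t, ht, e⟩ : p ∈ γ.extend '' Icc 0 1 := hrange ▸ this.1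
      refine ⟨t, fun _ => ⟨ht, time _ hp t ht e, fun h => ?_, fun h => ?_, fun _ _ => ?_⟩⟩
      · exact absurd (mem_edge.2 (Fin.ext h.symm)) (hn u (Sym2.mem_mk_left u v))
      · exact absurd (mem_edge.2 (Fin.ext h.symm)) (hn v (Sym2.mem_mk_right u v))
      · rw [hrange, e]; exact hcr
  choose τ hτ using key
  exact no_curve (g := γ.extend) (τ := τ) u.1.2 u.2.2 v.1.2 v.2.2 (fun h => hab (Fin.ext h))
    γ.continuous_extend hinj γ.extend_zero γ.extend_one (fun c hc => (hτ c hc).1)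
    (fun c hc => (hτ c hc).2.1) ((hτ _ u.1.2).2.2.1 rfl) ((hτ _ v.1.2).2.2.2.1 rfl)
    (fun c hc => (hτ c hc).2.2.2.2)

lemma MeetOnce.mono {V : Type} {c₁ c₂ : Set Plane → Set Plane → Plane → Prop}
    (h : ∀ A B p, c₁ A B p → c₂ A B p) {pos : V → Plane} {e f : Sym2 V} {A B : Set Plane}
    (H : MeetOnce c₁ pos e f A B) : MeetOnce c₂ pos e f A B :=
  H.imp id fun ⟨h1, p, h2, h3⟩ => ⟨h1, p, h2, h _ _ _ h3⟩

theorem main : (∀ v, ∃! w, matching.Adj v w) ∧ matching.edgeSet.ncard = 9 ∧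
    drawing.IsMaximalThrackle ChartCrossing ∧ drawing.IsMaximalThrackle SideCrossing := by
  refine ⟨?_, ?_, ⟨drawing_isThrackle, ?_⟩, ?_, drawing_noNewEdge⟩
  · change ∀ v : Fin 9 × Fin 2, ∃ w : Fin 9 × Fin 2, (v.1 = w.1 ∧ v.2 ≠ w.2) ∧
      ∀ y : Fin 9 × Fin 2, (v.1 = y.1 ∧ v.2 ≠ y.2) → y = w
    decide
  · rw [edgeSet_matching, Set.ncard_range_of_injective edge_injective]; simp
  · rintro ⟨u, v, A, h1, h2, h3, h4, h5⟩
    exact drawing_noNewEdge ⟨u, v, A, h1, h2, h3, h4,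
      fun f hf => (h5 f hf).mono fun _ _ _ => ChartCrossing.side⟩
  · exact fun e he f hf hef => (drawing_isThrackle e he f hf hef).mono
      fun _ _ _ => ChartCrossing.side

end Pool.Agent.Lib.MP_7161a7_co
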